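import Mathlib
import Pool.Agent.K7.H74.AF.Stm

set_option autoImplicit false

/-!
# The asymptotic formula for `a_1 x_1 ^ k + ... + a_s x_s ^ k`, almost all coefficients: definitions and statements

The same as project AF (`lo`, `blk`, `Box`, `mx`, `e` are taken from there) with random coefficients `a_i` instead of
random shifts. `Z = 3 ^ J` resp. `3 ^ mx b`.
-/

open MeasureTheory Finset

namespace Pool.Agent.K7.H74.AG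

open Pool.Agent.K7.H74.AF (lo blk Box mx e)

/-- Lebesgue measure on `[1 / m, m]` -/
noncomputable def seg (m : ℕ) : Measure ℝ := volume.restrict (Set.Icc (1 / (m : ℝ)) m)

/-- Lebesgue measure on `[1 / m, m] ^ t` -/
noncomputable def cub (m t : ℕ) : Measure (Fin t → ℝ) := Measure.pi fun _ => seg m

/-- the coefficients are in `[1 / m, m]` -/
def Cf (m : ℕ) {t : ℕ} (a : Fin t → ℝ) : Prop := ∀ i, 1 / (m : ℝ) ≤ a i ∧ a i ≤ m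

open Classical in
/-- the number of solutions in a box -/
noncomputable def cn (k : ℕ) {t : ℕ} (a : Fin t → ℝ) (b : Fin t → ℕ) (η τ : ℝ) : ℕ :=
  ((Box b).filter fun x => |∑ i, a i * (x i : ℝ) ^ k - τ| ≤ η).card

/-- the expected number of solutions in a box -/
noncomputable def vl (k : ℕ) {t : ℕ} (a : Fin t → ℝ) (b : Fin t → ℕ) (η τ : ℝ) : ℝ :=
  (volume {u : Fin t → ℝ | (∀ i, (lo (b i) : ℝ) ≤ u i ∧ u i < 3 ^ b i) ∧ |∑ i, a i * u i ^ k - τ| ≤ η}).toReal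

/-- level sets (window `1`) -/
def Lv (k : ℕ) {t : ℕ} (a : Fin t → ℝ) (b : Fin t → ℕ) (l : ℕ) : Set ℝ := {τ | (2 : ℝ) ^ l ≤ cn k a b 1 τ}

/-- excess sets (window `η`) -/
def Ex (k : ℕ) {t : ℕ} (a : Fin t → ℝ) (b : Fin t → ℕ) (η : ℝ) (l : ℕ) : Set ℝ :=
  {τ | vl k a b η τ + (2 : ℝ) ^ l ≤ cn k a b η τ}

/-- deficit sets (window `η`) -/
def Df (k : ℕ) {t : ℕ} (a : Fin t → ℝ) (b : Fin t → ℕ) (η : ℝ) (l : ℕ) : Set ℝ :=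
  {τ | (cn k a b η τ : ℝ) + (2 : ℝ) ^ l ≤ vl k a b η τ}

/-- the pairs `x ≠ y` of the block `J` with `τ - β x ^ k ∈ B` and `τ - β y ^ k ∈ B`, integrated over `τ` -/
noncomputable def pairs (k J : ℕ) (B : Set ℝ) (β : ℝ) : ENNReal :=
  ∑ x ∈ blk J, ∑ y ∈ (blk J).erase x, volume {τ : ℝ | τ - β * (x : ℝ) ^ k ∈ B ∧ τ - β * (y : ℝ) ^ k ∈ B}

/-- JOB PAIR: for `x ≠ y` the mean is `≤ |B| ^ 2 / |x ^ k - y ^ k|` (substitution `h = β (x ^ k - y ^ k)`) -/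
def StPair : Prop := ∀ k m : ℕ, 2 ≤ k → 1 ≤ m → ∃ C : ℝ, 0 < C ∧ ∀ (J : ℕ) (B : Set ℝ), MeasurableSet B →
  ∫⁻ β, pairs k J B β ∂(seg m) ≤
    ENNReal.ofReal (C * (1 + J) * ((3 : ℝ) ^ J) ^ 2 / ((3 : ℝ) ^ J) ^ k) * (volume B) ^ 2

/-- JOB PAE (assume `StPair`) -/
def StPae : Prop := ∀ k m : ℕ, 2 ≤ k → 1 ≤ m → ∀ (ι : Type) [Countable ι] (J : ι → ℕ) (B : ι → Set ℝ) (ω : ι → ℝ),
  (∀ n, MeasurableSet (B n)) → (∀ n, volume (B n) ≠ ⊤) → (∀ n, 0 < ω n) →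
  Summable (fun n => (1 + (J n : ℝ)) / ω n) →
  ∀ᵐ β ∂(seg m), ∃ C : ℝ, 0 ≤ C ∧ ∀ n, pairs k (J n) (B n) β ≤
    ENNReal.ofReal (C * ω n * ((3 : ℝ) ^ J n) ^ 2 / ((3 : ℝ) ^ J n) ^ k) * (volume (B n)) ^ 2

/-- JOB AE: almost all coefficient vectors -/
def StAe : Prop :=
  (∀ (m t : ℕ) (P : (Fin (t + 1) → ℝ) → Prop), MeasurableSet {a | P a} →
    (∀ᵐ a ∂(cub m t), ∀ᵐ β ∂(seg m), P (Fin.snoc a β)) → ∀ᵐ a ∂(cub m (t + 1)), P a) ∧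
  (∀ (m t : ℕ) (P : (Fin t → ℝ) → Prop), (∀ᵐ a ∂(cub m t), P a) →
    ∀ᵐ a ∂(cub m t), ∀ σ : Equiv.Perm (Fin t), P (a ∘ σ)) ∧
  (∀ m t : ℕ, ∀ᵐ a ∂(cub m t), Cf m a) ∧
  (∀ (t : ℕ) (P : (Fin t → ℝ) → Prop), (∀ m : ℕ, 1 ≤ m → ∀ᵐ a ∂(cub m t), P a) →
    ∀ᵐ a : Fin t → ℝ, (∀ i, 0 < a i) → P a)

/-- JOB MEAS: measurability -/
def StMeas : Prop :=
  (∀ (k t : ℕ) (b : Fin t → ℕ) (η : ℝ), Measurable fun p : (Fin t → ℝ) × ℝ => (cn k p.1 b η p.2 : ℝ)) ∧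
  (∀ (k t : ℕ) (b : Fin t → ℕ) (η : ℝ), Measurable fun p : (Fin t → ℝ) × ℝ => vl k p.1 b η p.2) ∧
  (∀ (k t : ℕ) (a : Fin t → ℝ) (b : Fin t → ℕ) (l : ℕ), MeasurableSet (Lv k a b l)) ∧
  (∀ (k t : ℕ) (a : Fin t → ℝ) (b : Fin t → ℕ) (η : ℝ) (l : ℕ), MeasurableSet (Ex k a b η l)) ∧
  (∀ (k t : ℕ) (a : Fin t → ℝ) (b : Fin t → ℕ) (η : ℝ) (l : ℕ), MeasurableSet (Df k a b η l)) ∧
  (∀ (k t : ℕ) (b : Fin t → ℕ) (l : ℕ) (c : ENNReal), MeasurableSet {a : Fin t → ℝ | volume (Lv k a b l) ≤ c}) ∧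
  (∀ (k t : ℕ) (b : Fin t → ℕ) (η : ℝ) (l : ℕ) (c : ENNReal),
    MeasurableSet {a : Fin t → ℝ | volume (Ex k a b η l) ≤ c}) ∧
  (∀ (k t : ℕ) (b : Fin t → ℕ) (η : ℝ) (l : ℕ) (c : ENNReal),
    MeasurableSet {a : Fin t → ℝ | volume (Df k a b η l) ≤ c})

/-- JOB SPLIT: adding one variable, the first moment -/
def StSplit : Prop :=
  (∀ (k t : ℕ) (a : Fin t → ℝ) (β : ℝ) (b : Fin t → ℕ) (J : ℕ) (η τ : ℝ),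
    cn k (Fin.snoc a β : Fin (t + 1) → ℝ) (Fin.snoc b J : Fin (t + 1) → ℕ) η τ =
      ∑ x ∈ blk J, cn k a b η (τ - β * (x : ℝ) ^ k)) ∧
  (∀ (k t : ℕ) (a : Fin t → ℝ) (b : Fin t → ℕ) (η τ : ℝ), (cn k a b η τ : ℝ) ≤ ((3 : ℝ) ^ mx b) ^ t) ∧
  (∀ (k t : ℕ) (a : Fin t → ℝ) (b : Fin t → ℕ) (η η' τ : ℝ), η ≤ η' → cn k a b η τ ≤ cn k a b η' τ) ∧
  (∀ (k t : ℕ) (a : Fin t → ℝ) (b : Fin t → ℕ) (η τ : ℝ), 0 ≤ vl k a b η τ ∧ vl k a b η τ ≤ ((3 : ℝ) ^ mx b) ^ t) ∧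
  (∀ (k t : ℕ) (a : Fin t → ℝ) (b : Fin t → ℕ) (l : ℕ),
    volume (Lv k a b l) ≤ ENNReal.ofReal (2 * ((3 : ℝ) ^ mx b) ^ t / 2 ^ l)) ∧
  (∀ (k t : ℕ) (a : Fin t → ℝ) (b : Fin t → ℕ) (η : ℝ) (l : ℕ), η ≤ 1 → Ex k a b η l ⊆ Lv k a b l) ∧
  (∀ (k t : ℕ) (a : Fin t → ℝ) (b : Fin t → ℕ) (η : ℝ) (l : ℕ), η ≤ 1 →
    volume (Df k a b η l) ≤ ENNReal.ofReal (2 * ((3 : ℝ) ^ mx b) ^ t))

/-- the bound for the level sets; `i = 0` is the first moment -/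
def SS (k t i : ℕ) (δ : ℝ) (a : Fin t → ℝ) : Prop :=
  ∃ C : ℕ, ∀ b : Fin t → ℕ, Monotone b → ∀ J l : ℕ, mx b ≤ J →
    (i = 0 ∨ C * ((3 : ℝ) ^ J) ^ ((i : ℝ) - 1 + δ) ≤ 2 ^ l) →
      volume (Lv k a b l) ≤
        ENNReal.ofReal (C * ((3 : ℝ) ^ J) ^ ((k : ℝ) + δ) * (((3 : ℝ) ^ J) ^ ((t : ℝ) - k) / 2 ^ l) ^ (2 ^ i))

/-- the same for `J = mx b` only -/
def SS0 (k t i : ℕ) (δ : ℝ) (a : Fin t → ℝ) : Prop :=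
  ∃ C : ℕ, ∀ b : Fin t → ℕ, Monotone b → ∀ l : ℕ,
    (i = 0 ∨ C * ((3 : ℝ) ^ mx b) ^ ((i : ℝ) - 1 + δ) ≤ 2 ^ l) →
      volume (Lv k a b l) ≤
        ENNReal.ofReal (C * ((3 : ℝ) ^ mx b) ^ ((k : ℝ) + δ) * (((3 : ℝ) ^ mx b) ^ ((t : ℝ) - k) / 2 ^ l) ^ (2 ^ i))

/-- JOB SBASE (assume `StSplit`) -/
def StSbase : Prop := ∀ (k i : ℕ) (δ : ℝ), 2 ≤ k → 0 < δ →
  (∀ (t : ℕ) (a : Fin t → ℝ), SS k t 0 δ a) ∧ (∀ a : Fin 0 → ℝ, SS k 0 i δ a)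

/-- JOB SCALE (assume `StSplit`) -/
def StScale : Prop := ∀ (k t i : ℕ) (δ : ℝ), 2 ≤ k → 0 < δ → δ < 1 → ∀ a : Fin t → ℝ, SS0 k t i δ a → SS k t i δ a

/-- the pair bound for a family of sets -/
def PB (k t : ℕ) (δ : ℝ) (β : ℝ) (B : (Fin t → ℕ) → ℕ → Set ℝ) : Prop :=
  ∃ C : ℝ, 0 ≤ C ∧ ∀ (b : Fin t → ℕ) (J l : ℕ), mx b ≤ J →
    pairs k J (B b l) β ≤
      ENNReal.ofReal (C * ((3 : ℝ) ^ J * 2 ^ l) ^ δ * ((3 : ℝ) ^ J) ^ 2 / ((3 : ℝ) ^ J) ^ k) * (volume (B b l)) ^ 2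

/-- JOB PLE (assume `StPae`, `StMeas`, `StSplit`): the pair bounds hold for almost all `β` -/
def StPle : Prop := ∀ (k t m : ℕ) (δ η : ℝ), 2 ≤ k → 1 ≤ m → 0 < δ → η ≤ 1 → ∀ a : Fin t → ℝ,
  ∀ᵐ β ∂(seg m), PB k t δ β (fun b l => Lv k a b l) ∧ PB k t δ β (fun b l => Ex k a b η l) ∧
    PB k t δ β (fun b l => Df k a b η l)

/-- JOB SSTEP (assume `StSplit`, `StMeas`): the step for the level sets (deterministic) -/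
def StSstep : Prop := ∀ (k t i : ℕ) (δ' : ℝ), 2 ≤ k → 0 < δ' → δ' < 1 → ∃ δ : ℝ, 0 < δ ∧ δ < 1 ∧
  ∀ (a : Fin t → ℝ) (β : ℝ), 0 < β → SS k t i δ a → SS k t (i + 1) δ a → PB k t δ β (fun b l => Lv k a b l) →
    SS0 k (t + 1) (i + 1) δ' (Fin.snoc a β)

/-- JOB SALL (assume all of the above): all levels -/
def StS : Prop := ∀ (k t i m : ℕ) (δ : ℝ), 2 ≤ k → 1 ≤ m → 0 < δ → δ < 1 → ∀ᵐ a ∂(cub m t), SS k t i δ a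

/-! ### The variance for `k + 1` variables -/

/-- the exponential sum over a block -/
noncomputable def SB (k c : ℕ) (α : ℝ) : ℂ := ∑ x ∈ blk c, e (α * (x : ℝ) ^ k)

/-- the integral over a block -/
noncomputable def MB (k c : ℕ) (α : ℝ) : ℂ := ∫ u in (lo c : ℝ)..((3 : ℝ) ^ c), e (α * u ^ k)

/-- JOB V1: Plancherel, for every `a` -/
def StV1 : Prop := ∀ (k t : ℕ) (η : ℝ), 2 ≤ k → 0 < η → ∀ (a : Fin t → ℝ) (b : Fin t → ℕ),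
  ∫⁻ τ : ℝ, ENNReal.ofReal (((cn k a b η τ : ℝ) - vl k a b η τ) ^ 2) ≤
    ENNReal.ofReal (4 * η ^ 2 * ∫ α : ℝ, Real.sinc (Real.pi * (2 * η * α)) ^ 2 *
      ‖∏ i, SB k (b i) (α * a i) - ∏ i, MB k (b i) (α * a i)‖ ^ 2)

/-- JOB V2: mean squares over `a` in `[1 / m, m]` for one block -/
def StV2 : Prop := ∀ k m : ℕ, 2 ≤ k → 1 ≤ m → ∃ C : ℝ, 1 ≤ C ∧ ∀ (c J : ℕ) (α : ℝ), c ≤ J → α ≠ 0 →
  (∫ a, ‖SB k c (α * a)‖ ^ 2 ∂(seg m)) ≤ C * ((3 : ℝ) ^ J) ^ 2 ∧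
  (∫ a, ‖MB k c (α * a)‖ ^ 2 ∂(seg m)) ≤ C * ((3 : ℝ) ^ J) ^ 2 ∧
  (∫ a, ‖SB k c (α * a)‖ ^ 2 ∂(seg m)) ≤ C * (1 + J) * ((3 : ℝ) ^ J + |α| ^ (-(2 : ℝ) / k)) ∧
  (∫ a, ‖MB k c (α * a)‖ ^ 2 ∂(seg m)) ≤ C * (1 + J) * ((3 : ℝ) ^ J + |α| ^ (-(2 : ℝ) / k)) ∧
  (∫ a, ‖SB k c (α * a) - MB k c (α * a)‖ ^ 2 ∂(seg m)) ≤
    C * (1 + J) * ((3 : ℝ) ^ J + ((3 : ℝ) ^ J) ^ ((k : ℝ) / 2 + 1) * |α| ^ (1 / 2 : ℝ))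

/-- JOB V3 (assume `StV1`, `StV2`): the variance; telescoping of the difference of the products -/
def StVar : Prop := ∀ (k m : ℕ) (η : ℝ), 2 ≤ k → 1 ≤ m → 0 < η → η ≤ 1 → ∃ (C : ℝ) (A : ℕ), 0 < C ∧
  ∀ b : Fin (k + 1) → ℕ,
    ∫⁻ a : Fin (k + 1) → ℝ, (∫⁻ τ : ℝ, ENNReal.ofReal (((cn k a b η τ : ℝ) - vl k a b η τ) ^ 2)) ∂(cub m (k + 1)) ≤
      ENNReal.ofReal (C * (1 + (mx b : ℝ)) ^ A * ((3 : ℝ) ^ mx b) ^ (k + 1))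

/-! ### The excess over, and the deficit from, the expected number -/

/-- the bound for the excess sets, for `k + j` variables -/
def TT (k j : ℕ) (δ ε η : ℝ) (a : Fin (k + j) → ℝ) : Prop :=
  ∃ C : ℕ, ∀ b : Fin (k + j) → ℕ, Monotone b → ∀ J l : ℕ, mx b ≤ J →
    C * ((3 : ℝ) ^ J) ^ ((j : ℝ) - δ) ≤ 2 ^ l →
      volume (Ex k a b η l) ≤
        ENNReal.ofReal (C * ((3 : ℝ) ^ J) ^ ((k : ℝ) - 2 ^ j / 2 + ε) * (((3 : ℝ) ^ J) ^ (j : ℝ) / 2 ^ l) ^ (2 ^ j))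

/-- the bound for the deficit sets, for `k + j` variables -/
def LL (k j : ℕ) (δ ε η : ℝ) (a : Fin (k + j) → ℝ) : Prop :=
  ∃ C : ℕ, ∀ b : Fin (k + j) → ℕ, Monotone b → ∀ J l : ℕ, mx b ≤ J →
    C * ((3 : ℝ) ^ J) ^ ((j : ℝ) - δ) ≤ 2 ^ l →
      volume (Df k a b η l) ≤
        ENNReal.ofReal (C * ((3 : ℝ) ^ J) ^ ((k : ℝ) - 2 ^ j / 2 + ε) * (((3 : ℝ) ^ J) ^ (j : ℝ) / 2 ^ l) ^ (2 ^ j))

/-- JOB TBASE (assume `StVar`, `StMeas`, `StSplit`): `j = 1` -/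
def StTbase : Prop := ∀ (k m : ℕ) (ε η : ℝ), 2 ≤ k → 1 ≤ m → 0 < ε → 0 < η → η ≤ 1 →
  ∀ᵐ a ∂(cub m (k + 1)), TT k 1 1 ε η a ∧ LL k 1 1 ε η a

/-- JOB TVL: sum over one variable and integral, both directions; and the size of `vl` -/
def StTvl : Prop := ∀ (k t m : ℕ), 2 ≤ k → k ≤ t → 1 ≤ m → ∃ C : ℝ, 0 < C ∧
  (∀ (a : Fin t → ℝ) (b : Fin t → ℕ) (J : ℕ) (η τ β : ℝ), Cf m a → Monotone b → mx b ≤ J → 0 < η → η ≤ 1 →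
    1 / (m : ℝ) ≤ β → β ≤ m →
    |∑ x ∈ blk J, vl k a b η (τ - β * (x : ℝ) ^ k) -
      vl k (Fin.snoc a β : Fin (t + 1) → ℝ) (Fin.snoc b J : Fin (t + 1) → ℕ) η τ| ≤ C * ((3 : ℝ) ^ J) ^ (t - k)) ∧
  (∀ (a : Fin t → ℝ) (b : Fin t → ℕ) (η τ : ℝ), Cf m a → Monotone b → 0 < η → η ≤ 1 →
    vl k a b η τ ≤ C * ((3 : ℝ) ^ mx b) ^ (t - k))

/-- JOB TSTEP (assume `StSplit`, `StMeas`, `StTvl`): the step for the excess sets (deterministic) -/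
def StTstep : Prop := ∀ (k j m : ℕ) (ε' : ℝ), 2 ≤ k → 1 ≤ j → 1 ≤ m → 0 < ε' → ∃ ε δs : ℝ, 0 < ε ∧ 0 < δs ∧ δs < 1 ∧
  ∀ δ : ℝ, 0 < δ → ∃ δ' : ℝ, 0 < δ' ∧
  ∀ (η : ℝ) (a : Fin (k + j) → ℝ) (β : ℝ), 0 < η → η ≤ 1 → Cf m a → 1 / (m : ℝ) ≤ β → β ≤ m →
    TT k j δ ε η a → SS k (k + j) (j + 1) δs a → PB k (k + j) δs β (fun b l => Ex k a b η l) →
      TT k (j + 1) δ' ε' η (Fin.snoc a β : Fin (k + j + 1) → ℝ)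

/-- JOB LSTEP (assume `StSplit`, `StMeas`, `StTvl`): the step for the deficit sets (deterministic). As TSTEP, but
`Df l` is empty if `2 ^ l` is larger than the bound for `vl`, so the case `K ≤ 1` does not occur -/
def StLstep : Prop := ∀ (k j m : ℕ) (ε' : ℝ), 2 ≤ k → 1 ≤ j → 1 ≤ m → 0 < ε' → ∃ ε δs : ℝ, 0 < ε ∧ 0 < δs ∧ δs < 1 ∧
  ∀ δ : ℝ, 0 < δ → ∃ δ' : ℝ, 0 < δ' ∧
  ∀ (η : ℝ) (a : Fin (k + j) → ℝ) (β : ℝ), 0 < η → η ≤ 1 → Cf m a → 1 / (m : ℝ) ≤ β → β ≤ m →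
    LL k j δ ε η a → PB k (k + j) δs β (fun b l => Df k a b η l) →
      LL k (j + 1) δ' ε' η (Fin.snoc a β : Fin (k + j + 1) → ℝ)

/-- JOB TALL (assume `StTbase`, `StTstep`, `StLstep`, `StS`, `StPle`, `StAe`, `StMeas`) -/
def StT : Prop := ∀ (k j m : ℕ) (ε : ℝ), 2 ≤ k → 1 ≤ j → 1 ≤ m → 0 < ε → ∃ δ : ℝ, 0 < δ ∧
  ∀ η : ℝ, 0 < η → η ≤ 1 → ∀ᵐ a ∂(cub m (k + j)), TT k j δ ε η a ∧ LL k j δ ε η a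

end Pool.Agent.K7.H74.AG
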