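import Pool.Agent.K7.H74.AG.FinD
import Pool.Agent.K7.H3.AG.AE
import Pool.Agent.K7.H3.AG.MEAS
import Pool.Agent.K7.H11.AG.LSTEP
import Pool.Agent.K7.H12.AG.PL
import Pool.Agent.K7.H66.AG.PAIR
import Pool.Agent.K7.H46.AG.SALL
import Pool.Agent.K7.H94.AG.SBASE
import Pool.Agent.K7.H94.AG.SCALE
import Pool.Agent.K7.H55.AG.SPLIT
import Pool.Agent.K7.H91.AG.SSTEP
import Pool.Agent.K7.H20.AG.TALL
import Pool.Agent.K7.H5.AG.TBASE
import Pool.Agent.K7.H64.AG.TSTEP
import Pool.Agent.K7.H90.AG.TVL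
import Pool.Agent.K7.H85.AG.V1
import Pool.Agent.K7.H50.AG.V2All
import Pool.Agent.K7.H99.AG.V3

set_option autoImplicit false

/-! # All jobs of project AG together -/

namespace Pool.Agent.K7.H74.AG

theorem hAe : StAe := Pool.Agent.K7.H3.AG.stAe
theorem hMeas : StMeas := Pool.Agent.K7.H3.AG.stMeas
theorem hSplit : StSplit := Pool.Agent.K7.H55.AG.split
theorem hPair : StPair := Pool.Agent.K7.H66.AGPAIR.t
theorem hPae : StPae := Pool.Agent.K7.H12.AG.pae hPair
theorem hPle : StPle := Pool.Agent.K7.H12.AG.ple hPae hMeas hSplit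
theorem hSbase : StSbase := Pool.Agent.K7.H94.AG.sbase hSplit
theorem hScale : StScale := Pool.Agent.K7.H94.AG.scale
theorem hSstep : StSstep := Pool.Agent.K7.H91.AG.sstep hSplit hMeas
theorem hS : StS := Pool.Agent.K7.H46.AG.sall hSplit hMeas hAe hPle hSbase hScale hSstep
theorem hV1 : StV1 := Pool.Agent.K7.H85.AG.v1
theorem hV2 : StV2 := Pool.Agent.K7.H50.AG.stV2
theorem hVar : StVar := Pool.Agent.K7.H99.AG.v3 hV1 hV2
theorem hTbase : StTbase := Pool.Agent.K7.H5.AGTBASE.t hVar hMeas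
theorem hTvl : StTvl := Pool.Agent.K7.H90.AG.Tvl.stTvl
theorem hTstep : StTstep := Pool.Agent.K7.H64.AGT.tstep hSplit hMeas hTvl
theorem hLstep : StLstep := Pool.Agent.K7.H11.AGL.lstep hSplit hMeas hTvl
theorem hT : StT := Pool.Agent.K7.H20.AG.tall hTbase hTstep hLstep hS hPle hAe hMeas

end Pool.Agent.K7.H74.AG
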