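import Pool.Agent.K7.H74.AG.Stm
import Pool.Agent.K7.H74.AF.FinC

set_option autoImplicit false

/-! # Final step, part A: boxes, permutations, the number of solutions -/

open MeasureTheory Finset

namespace Pool.Agent.K7.H74.AG

open Pool.Agent.K7.H74.AF (lo blk Box mx e bs mem_bs card_bs mx_le lo_zero lo_succ exists_blk lo_ge mx_perm poly_small)

/-- the number of solutions -/
noncomputable def num (k : ℕ) {s : ℕ} (a : Fin s → ℝ) (η τ : ℝ) : ℕ :=
  Nat.card {x : Fin s → ℕ // |∑ i, a i * (x i : ℝ) ^ k - τ| < η}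

theorem sub_boxes {k s J m : ℕ} (hk : 1 ≤ k) (hm : 1 ≤ m) {a : Fin s → ℝ} (ha : Cf m a) {η τ : ℝ}
    (hJ : (m : ℝ) * (τ + η) ≤ ((3 : ℝ) ^ J) ^ k) {x : Fin s → ℕ} (hx : |∑ i, a i * (x i : ℝ) ^ k - τ| < η) :
    ∃ b ∈ bs J s, x ∈ Box b := by
  have hm0 : (0 : ℝ) < m := by exact_mod_cast hm
  have ha0 : ∀ i, 0 < a i := fun i => lt_of_lt_of_le (by positivity) (ha i).1
  have h1 : ∀ i, x i < 3 ^ J := by
    intro i
    have h2 : a i * (x i : ℝ) ^ k ≤ ∑ i, a i * (x i : ℝ) ^ k :=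
      single_le_sum (f := fun i => a i * (x i : ℝ) ^ k) (fun j _ => mul_nonneg (ha0 j).le (by positivity)) (mem_univ i)
    have h3 := (abs_lt.1 hx).2
    have h4 : 1 ≤ (m : ℝ) * a i := by
      have h5 := mul_le_mul_of_nonneg_left (ha i).1 hm0.le
      rwa [mul_one_div_cancel hm0.ne'] at h5
    have h5 : (x i : ℝ) ^ k ≤ (m : ℝ) * (a i * (x i : ℝ) ^ k) := by
      have : (0 : ℝ) ≤ (x i : ℝ) ^ k := by positivity
      nlinarith
    have h6 : (m : ℝ) * (a i * (x i : ℝ) ^ k) < (m : ℝ) * (τ + η) := by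
      apply mul_lt_mul_of_pos_left _ hm0
      linarith
    have h7 : (x i : ℝ) ^ k < ((3 : ℝ) ^ J) ^ k := by linarith
    have h8 : (x i) ^ k < (3 ^ J) ^ k := by exact_mod_cast h7
    exact lt_of_pow_lt_pow_left₀ k (Nat.zero_le _) h8
  choose c hc1 hc2 using fun i => exists_blk (h1 i)
  exact ⟨c, mem_bs.2 hc1, Fintype.mem_piFinset.2 hc2⟩

open Classical in
theorem num_le {k s J m : ℕ} (hk : 1 ≤ k) (hm : 1 ≤ m) {a : Fin s → ℝ} (ha : Cf m a) {η τ : ℝ}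
    (hJ : (m : ℝ) * (τ + η) ≤ ((3 : ℝ) ^ J) ^ k) :
    num k a η τ ≤ ∑ b ∈ bs J s, cn k a b η τ := by
  set T : Finset (Fin s → ℕ) := (bs J s).biUnion fun b => (Box b).filter fun x => |∑ i, a i * (x i : ℝ) ^ k - τ| ≤ η with hT
  have h1 : num k a η τ ≤ T.card := by
    have e1 : Nat.card {x : Fin s → ℕ // x ∈ T} = T.card := by
      rw [Nat.card_eq_fintype_card, Fintype.card_coe]
    rw [← e1]
    refine Nat.card_mono T.finite_toSet ?_
    intro x hx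
    obtain ⟨b, hb1, hb2⟩ := sub_boxes hk hm ha hJ hx
    have hx' : |∑ i, a i * (x i : ℝ) ^ k - τ| < η := hx
    change x ∈ T
    rw [hT, Finset.mem_biUnion]
    exact ⟨b, hb1, Finset.mem_filter.2 ⟨hb2, hx'.le⟩⟩
  exact h1.trans Finset.card_biUnion_le

theorem Box_disj {s : ℕ} {b b' : Fin s → ℕ} (h : b ≠ b') : Disjoint (Box b) (Box b') := by
  rw [Finset.disjoint_left]
  intro x h1 h2
  apply h
  funext i
  unfold Box at h1 h2
  rw [Fintype.mem_piFinset] at h1 h2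
  have h3 := h1 i
  have h4 := h2 i
  unfold blk at h3 h4
  rw [Finset.mem_Ico] at h3 h4
  by_contra h5
  rcases Nat.lt_or_gt_of_ne h5 with h6 | h6
  · have := lo_ge h6
    omega
  · have := lo_ge h6
    omega

open Classical in
theorem le_num {k s J m : ℕ} (hk : 1 ≤ k) (hm : 1 ≤ m) {a : Fin s → ℝ} (ha : Cf m a) {η η' τ : ℝ} (hη : η' < η)
    (hJ : (m : ℝ) * (τ + η) ≤ ((3 : ℝ) ^ J) ^ k) :
    ∑ b ∈ bs J s, cn k a b η' τ ≤ num k a η τ := by
  set T : Finset (Fin s → ℕ) := (bs J s).biUnion fun b => (Box b).filter fun x => |∑ i, a i * (x i : ℝ) ^ k - τ| ≤ η' with hT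
  have h0 : T.card = ∑ b ∈ bs J s, cn k a b η' τ := by
    rw [hT, Finset.card_biUnion]
    · rfl
    · intro b _ b' _ hbb
      exact Finset.disjoint_filter_filter (Box_disj hbb)
  rw [← h0]
  have e1 : Nat.card {x : Fin s → ℕ // x ∈ T} = T.card := by
    rw [Nat.card_eq_fintype_card, Fintype.card_coe]
  rw [← e1]
  refine Nat.card_mono ?_ ?_
  · refine ((bs J s).biUnion fun b => Box b).finite_toSet.subset ?_
    intro x hx
    obtain ⟨b, hb1, hb2⟩ := sub_boxes hk hm ha hJ hx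
    exact Finset.mem_coe.2 (Finset.mem_biUnion.2 ⟨b, hb1, hb2⟩)
  · intro x hx
    have hx' : x ∈ T := hx
    rw [hT, Finset.mem_biUnion] at hx'
    obtain ⟨b, _, h2⟩ := hx'
    rw [Finset.mem_filter] at h2
    change |∑ i, a i * (x i : ℝ) ^ k - τ| < η
    exact lt_of_le_of_lt h2.2 hη

/-! ### permutations -/

theorem cn_perm (k : ℕ) {s : ℕ} (a : Fin s → ℝ) (b : Fin s → ℕ) (η τ : ℝ) (σ : Equiv.Perm (Fin s)) :
    cn k (a ∘ σ) (b ∘ σ) η τ = cn k a b η τ := by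
  classical
  unfold cn
  symm
  refine Finset.card_bij (fun x _ => x ∘ σ) ?_ ?_ ?_
  · intro x hx
    rw [Finset.mem_filter] at hx ⊢
    obtain ⟨h1, h2⟩ := hx
    unfold Box at h1 ⊢
    rw [Fintype.mem_piFinset] at h1 ⊢
    refine ⟨fun i => h1 (σ i), ?_⟩
    have h3 : ∑ i, (a ∘ σ) i * (((x ∘ σ) i : ℕ) : ℝ) ^ k = ∑ i, a i * (x i : ℝ) ^ k :=
      Equiv.sum_comp σ (fun i => a i * (x i : ℝ) ^ k)
    rw [h3]
    exact h2
  · intro x _ y _ hxy
    have : (x ∘ σ) ∘ σ.symm = (y ∘ σ) ∘ σ.symm := by rw [hxy]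
    funext i
    have h4 := congrFun this i
    simpa using h4
  · intro y hy
    rw [Finset.mem_filter] at hy
    obtain ⟨h1, h2⟩ := hy
    unfold Box at h1
    rw [Fintype.mem_piFinset] at h1
    refine ⟨y ∘ σ.symm, ?_, ?_⟩
    · rw [Finset.mem_filter]
      unfold Box
      rw [Fintype.mem_piFinset]
      refine ⟨fun i => ?_, ?_⟩
      · have h5 := h1 (σ.symm i)
        simpa using h5
      · have h3 : ∑ i, a i * (((y ∘ σ.symm) i : ℕ) : ℝ) ^ k = ∑ i, (a ∘ σ) i * (y i : ℝ) ^ k := by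
          rw [← Equiv.sum_comp σ (fun i => a i * (((y ∘ σ.symm) i : ℕ) : ℝ) ^ k)]
          simp
        rw [h3]
        exact h2
    · funext i
      simp

theorem vl_perm (k : ℕ) {s : ℕ} (a : Fin s → ℝ) (b : Fin s → ℕ) (η τ : ℝ) (σ : Equiv.Perm (Fin s)) :
    vl k (a ∘ σ) (b ∘ σ) η τ = vl k a b η τ := by
  unfold vl
  congr 1
  have hmp := volume_measurePreserving_piCongrLeft (fun _ : Fin s => ℝ) σ
  have h1 := hmp.measure_preimage_equiv
    {u : Fin s → ℝ | (∀ i, (lo (b i) : ℝ) ≤ u i ∧ u i < 3 ^ b i) ∧ |∑ i, a i * u i ^ k - τ| ≤ η}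
  rw [← h1]
  congr 1
  ext u
  have h2 : ∀ i, (MeasurableEquiv.piCongrLeft (fun _ : Fin s => ℝ) σ) u i = u (σ.symm i) := by
    intro i
    have h3 := Equiv.piCongrLeft_apply_apply (fun _ : Fin s => ℝ) σ u (σ.symm i)
    rw [Equiv.apply_symm_apply] at h3
    exact h3
  have h6 : ∑ i, a i * u (σ.symm i) ^ k = ∑ i, a (σ i) * u i ^ k := by
    rw [← Equiv.sum_comp σ (fun i => a i * u (σ.symm i) ^ k)]
    simp
  simp only [Set.mem_preimage, Set.mem_setOf_eq, Function.comp_apply, h2]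
  constructor
  · rintro ⟨h3, h4⟩
    refine ⟨fun i => ?_, ?_⟩
    · have h5 := h3 (σ.symm i)
      simpa using h5
    · rw [h6]
      exact h4
  · rintro ⟨h3, h4⟩
    refine ⟨fun i => ?_, ?_⟩
    · have h5 := h3 (σ i)
      simpa using h5
    · rw [h6] at h4
      exact h4

theorem Ex_perm (k : ℕ) {s : ℕ} (a : Fin s → ℝ) (b : Fin s → ℕ) (η : ℝ) (l : ℕ) (σ : Equiv.Perm (Fin s)) :
    Ex k (a ∘ σ) (b ∘ σ) η l = Ex k a b η l := by
  unfold Ex
  ext τ
  simp only [Set.mem_setOf_eq, cn_perm, vl_perm]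

theorem Df_perm (k : ℕ) {s : ℕ} (a : Fin s → ℝ) (b : Fin s → ℕ) (η : ℝ) (l : ℕ) (σ : Equiv.Perm (Fin s)) :
    Df k (a ∘ σ) (b ∘ σ) η l = Df k a b η l := by
  unfold Df
  ext τ
  simp only [Set.mem_setOf_eq, cn_perm, vl_perm]

end Pool.Agent.K7.H74.AG
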