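import Pool.Agent.K7.H74.AG.FinA

set_option autoImplicit false

/-! # Final step, part B: the expected number -/

open MeasureTheory Finset

namespace Pool.Agent.K7.H74.AG

open Pool.Agent.K7.H74.AF (lo blk Box mx e bs mem_bs card_bs mx_le lo_zero lo_succ exists_blk lo_ge mx_perm poly_small)

/-- the positive part of the body `∑ a_i u_i ^ k < c` -/
def Bd (k : ℕ) {s : ℕ} (a : Fin s → ℝ) (c : ℝ) : Set (Fin s → ℝ) := {u | (∀ i, 0 < u i) ∧ ∑ i, a i * u i ^ k < c}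

/-- the constant -/
noncomputable def Pa (k : ℕ) {s : ℕ} (a : Fin s → ℝ) : ℝ := WS.Vs k s * (∏ i, a i) ^ (-(1 : ℝ) / k)

theorem Bd_meas (k : ℕ) {s : ℕ} (a : Fin s → ℝ) (c : ℝ) : MeasurableSet (Bd k a c) := by
  have h1 : Bd k a c = (Set.univ.pi fun _ => Set.Ioi (0 : ℝ)) ∩ {u : Fin s → ℝ | ∑ i, a i * u i ^ k < c} := by
    ext u
    simp [Bd, Set.mem_pi]
  rw [h1]
  exact (MeasurableSet.univ_pi fun i => measurableSet_Ioi).inter (measurableSet_lt (by fun_prop) measurable_const)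

theorem A1_fin {k s : ℕ} (hk : 1 ≤ k) : volume (WS.A1 k s) ≠ ⊤ := by
  refine ne_top_of_le_ne_top ?_ (measure_mono (t := Set.Icc (fun _ => (0:ℝ)) (fun _ => (1:ℝ))) ?_)
  · exact (Bornology.IsBounded.measure_lt_top (Metric.isBounded_Icc _ _)).ne
  · rintro u ⟨h1, h2⟩
    refine ⟨fun i => (h1 i).le, fun i => ?_⟩
    have h3 : u i ^ k ≤ ∑ i, u i ^ k := single_le_sum (f := fun i => u i ^ k) (fun j _ => pow_nonneg (h1 j).le _) (mem_univ i)
    have h4 : u i ^ k < 1 := lt_of_le_of_lt h3 h2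
    have h5 := (pow_lt_one_iff_of_nonneg (h1 i).le (by omega : k ≠ 0)).1 h4
    exact h5.le

theorem Bd_vol {k s : ℕ} (hk : 1 ≤ k) {a : Fin s → ℝ} (ha : ∀ i, 0 < a i) {c : ℝ} (hc : 0 < c) :
    volume (Bd k a c) = ENNReal.ofReal (Pa k a * c ^ ((s : ℝ) / k)) := by
  classical
  have hk0 : (k : ℝ) ≠ 0 := by positivity
  set d : Fin s → ℝ := fun i => (a i / c) ^ (1 / (k : ℝ)) with hd
  have hd0 : ∀ i, 0 < d i := fun i => Real.rpow_pos_of_pos (div_pos (ha i) hc) _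
  have hdk : ∀ i, d i ^ k = a i / c := by
    intro i
    rw [hd]
    simp only
    rw [← Real.rpow_natCast, ← Real.rpow_mul (div_pos (ha i) hc).le, one_div_mul_cancel hk0, Real.rpow_one]
  set D : (Fin s → ℝ) →ₗ[ℝ] (Fin s → ℝ) := Matrix.toLin' (Matrix.diagonal d) with hD
  have hDapp : ∀ u i, D u i = d i * u i := by
    intro u i
    rw [hD, Matrix.toLin'_apply, Matrix.mulVec_diagonal]
  have hdet : LinearMap.det D = ∏ i, d i := by
    rw [hD, LinearMap.det_toLin', Matrix.det_diagonal]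
  have hdet0 : 0 < ∏ i, d i := Finset.prod_pos fun i _ => hd0 i
  have hpre : Bd k a c = D ⁻¹' (WS.A1 k s) := by
    ext u
    change ((∀ i, 0 < u i) ∧ ∑ i, a i * u i ^ k < c) ↔ ((∀ i, 0 < D u i) ∧ ∑ i, (D u i) ^ k < 1)
    simp only [hDapp, mul_pow, hdk]
    have h1 : ∑ i, a i / c * u i ^ k = (∑ i, a i * u i ^ k) / c := by
      rw [Finset.sum_div]
      exact Finset.sum_congr rfl fun i _ => by ring
    rw [h1, div_lt_one hc]
    have h2 : (∀ i, 0 < u i) ↔ ∀ i, 0 < d i * u i :=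
      forall_congr' fun i => (mul_pos_iff_of_pos_left (hd0 i)).symm
    rw [h2]
  have h3 := MeasureTheory.Measure.addHaar_preimage_linearMap (volume : Measure (Fin s → ℝ)) (f := D)
    (by rw [hdet]; exact hdet0.ne') (WS.A1 k s)
  rw [hpre, h3, hdet]
  have h4 : volume (WS.A1 k s) = ENNReal.ofReal (WS.Vs k s) := by
    unfold WS.Vs
    rw [ENNReal.ofReal_toReal (A1_fin hk)]
  rw [h4, ← ENNReal.ofReal_mul (abs_nonneg _)]
  congr 1
  rw [abs_of_pos (inv_pos.2 hdet0)]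
  have hP : ∏ i, d i = (∏ i, a i) ^ (1 / (k : ℝ)) * c ^ (-((s : ℝ) / k)) := by
    rw [hd]
    simp only
    rw [Real.finset_prod_rpow _ _ (fun i _ => (div_pos (ha i) hc).le), Finset.prod_div_distrib, Finset.prod_const,
      Finset.card_univ, Fintype.card_fin, Real.div_rpow (Finset.prod_nonneg fun i _ => (ha i).le) (by positivity),
      ← Real.rpow_natCast c s, ← Real.rpow_mul hc.le, div_eq_mul_inv, ← Real.rpow_neg hc.le]
    congr 2
    ring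
  have hPa : 0 < ∏ i, a i := Finset.prod_pos fun i _ => ha i
  rw [hP, mul_inv, ← Real.rpow_neg hPa.le, ← Real.rpow_neg hc.le, neg_neg]
  unfold Pa
  have e1 : -(1 / (k : ℝ)) = -(1 : ℝ) / k := by ring
  rw [e1]
  ring

/-- the region of a box -/
def Rg (k : ℕ) {s : ℕ} (a : Fin s → ℝ) (b : Fin s → ℕ) (η τ : ℝ) : Set (Fin s → ℝ) :=
  {u | (∀ i, (lo (b i) : ℝ) ≤ u i ∧ u i < 3 ^ b i) ∧ |∑ i, a i * u i ^ k - τ| ≤ η}

theorem Rg_meas (k : ℕ) {s : ℕ} (a : Fin s → ℝ) (b : Fin s → ℕ) (η τ : ℝ) : MeasurableSet (Rg k a b η τ) := by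
  have h1 : Rg k a b η τ = (Set.univ.pi fun i => Set.Ico (lo (b i) : ℝ) (3 ^ b i)) ∩
      {u : Fin s → ℝ | |∑ i, a i * u i ^ k - τ| ≤ η} := by
    ext u
    simp [Rg, Set.mem_pi, Set.mem_Ico]
  rw [h1]
  exact (MeasurableSet.univ_pi fun i => measurableSet_Ico).inter (measurableSet_le (by fun_prop) measurable_const)

theorem Rg_disj (k : ℕ) {s : ℕ} (a : Fin s → ℝ) {b b' : Fin s → ℕ} (h : b ≠ b') (η τ : ℝ) :
    Disjoint (Rg k a b η τ) (Rg k a b' η τ) := by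
  rw [Set.disjoint_left]
  rintro u ⟨h1, _⟩ ⟨h2, _⟩
  apply h
  funext i
  by_contra h3
  obtain ⟨h4, h5⟩ := h1 i
  obtain ⟨h6, h7⟩ := h2 i
  rcases Nat.lt_or_gt_of_ne h3 with h8 | h8
  · have h9 : ((3 ^ b i : ℕ) : ℝ) ≤ (lo (b' i) : ℝ) := by exact_mod_cast lo_ge h8
    push_cast at h9
    linarith
  · have h9 : ((3 ^ b' i : ℕ) : ℝ) ≤ (lo (b i) : ℝ) := by exact_mod_cast lo_ge h8
    push_cast at h9
    linarith

/-- the union of the regions -/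
def Un (k J : ℕ) {s : ℕ} (a : Fin s → ℝ) (η τ : ℝ) : Set (Fin s → ℝ) := ⋃ b ∈ bs J s, Rg k a b η τ

theorem Un_bdd (k J : ℕ) {s : ℕ} (a : Fin s → ℝ) (η τ : ℝ) :
    Un k J a η τ ⊆ Set.Icc (fun _ => (0:ℝ)) (fun _ => (3:ℝ) ^ J) := by
  intro u hu
  unfold Un at hu
  rw [Set.mem_iUnion₂] at hu
  obtain ⟨b, hb, h4, _⟩ := hu
  rw [Set.mem_Icc]
  refine ⟨fun i => (Nat.cast_nonneg _).trans (h4 i).1, fun i => ?_⟩
  have h5 : (3:ℝ) ^ b i ≤ 3 ^ J := pow_le_pow_right₀ (by norm_num) (mem_bs.1 hb i)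
  exact (h4 i).2.le.trans h5

theorem Un_fin (k J : ℕ) {s : ℕ} (a : Fin s → ℝ) (η τ : ℝ) : volume (Un k J a η τ) ≠ ⊤ :=
  ne_top_of_le_ne_top (Bornology.IsBounded.measure_lt_top (Metric.isBounded_Icc _ _)).ne
    (measure_mono (Un_bdd k J a η τ))

theorem sum_vl (k J : ℕ) {s : ℕ} (a : Fin s → ℝ) (η τ : ℝ) :
    ∑ b ∈ bs J s, vl k a b η τ = (volume (Un k J a η τ)).toReal := by
  have hfin : ∀ b ∈ bs J s, volume (Rg k a b η τ) ≠ ⊤ := by
    intro b hb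
    have h7 : Rg k a b η τ ⊆ Un k J a η τ := Set.subset_biUnion_of_mem (u := fun b => Rg k a b η τ) hb
    exact ne_top_of_le_ne_top (Un_fin k J a η τ) (measure_mono h7)
  unfold Un
  rw [measure_biUnion_finset (fun b _ b' _ hbb => Rg_disj k a hbb η τ) (fun b _ => Rg_meas k a b η τ),
      ENNReal.toReal_sum hfin]
  rfl

theorem Vs_nonneg (k s : ℕ) : 0 ≤ WS.Vs k s := ENNReal.toReal_nonneg

theorem Pa_nonneg {k s : ℕ} {a : Fin s → ℝ} (ha : ∀ i, 0 < a i) : 0 ≤ Pa k a :=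
  mul_nonneg (Vs_nonneg k s) (Real.rpow_nonneg (Finset.prod_nonneg fun i _ => (ha i).le) _)

theorem Bd_diff {k s : ℕ} (hk : 1 ≤ k) {a : Fin s → ℝ} (ha : ∀ i, 0 < a i) {c d : ℝ} (hd : 0 < d) (hdc : d ≤ c) :
    (volume (Bd k a c \ Bd k a d)).toReal = Pa k a * (c ^ ((s : ℝ) / k) - d ^ ((s : ℝ) / k)) := by
  have hc : 0 < c := lt_of_lt_of_le hd hdc
  have hsub : Bd k a d ⊆ Bd k a c := fun u hu => ⟨hu.1, lt_of_lt_of_le hu.2 hdc⟩
  have h1 : volume (Bd k a d) ≠ ⊤ := by rw [Bd_vol hk ha hd]; exact ENNReal.ofReal_ne_top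
  rw [measure_sdiff hsub (Bd_meas k a d).nullMeasurableSet h1, Bd_vol hk ha hc, Bd_vol hk ha hd,
    ← ENNReal.ofReal_sub _ (mul_nonneg (Pa_nonneg ha) (Real.rpow_nonneg hd.le _)), ENNReal.toReal_ofReal]
  · ring
  · have := Real.rpow_le_rpow hd.le hdc (by positivity : (0 : ℝ) ≤ (s : ℝ) / k)
    have h2 := mul_le_mul_of_nonneg_left this (Pa_nonneg (k := k) ha)
    linarith

theorem sum_vl_le {k J s : ℕ} (hk : 1 ≤ k) {a : Fin s → ℝ} (ha : ∀ i, 0 < a i) {η c d τ : ℝ} (hη : 0 ≤ η) (hd : 0 < d)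
    (hdτ : d ≤ τ - η) (hc : τ + η < c) :
    ∑ b ∈ bs J s, vl k a b η τ ≤ Pa k a * (c ^ ((s : ℝ) / k) - d ^ ((s : ℝ) / k)) := by
  rw [sum_vl, ← Bd_diff hk ha hd (by linarith)]
  have hfin : volume (Bd k a c \ Bd k a d) ≠ ⊤ := by
    refine ne_top_of_le_ne_top ?_ (measure_mono Set.diff_subset)
    rw [Bd_vol hk ha (by linarith)]
    exact ENNReal.ofReal_ne_top
  refine ENNReal.toReal_mono hfin (measure_mono_ae ?_)
  have h3 : ∀ᵐ u : Fin s → ℝ, ∀ i, u i ≠ 0 := by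
    rw [ae_all_iff]
    intro i
    have h4 : ∀ᵐ x : ℝ, x ≠ 0 := compl_mem_ae_iff.2 (measure_singleton (0 : ℝ))
    rw [volume_pi]
    exact (Measure.quasiMeasurePreserving_eval (fun _ : Fin s => (volume : Measure ℝ)) i).ae h4
  filter_upwards [h3] with u hu hu2
  have hu3 : u ∈ Un k J a η τ := hu2
  have hbd := Un_bdd k J a η τ hu3
  rw [Set.mem_Icc] at hbd
  have hpos : ∀ i, 0 < u i := fun i => lt_of_le_of_ne (hbd.1 i) (hu i).symm
  unfold Un at hu3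
  rw [Set.mem_iUnion₂] at hu3
  obtain ⟨b, hb, _, h4⟩ := hu3
  rw [abs_le] at h4
  change u ∈ Bd k a c \ Bd k a d
  refine ⟨⟨hpos, by linarith [h4.2]⟩, ?_⟩
  rintro ⟨_, h5⟩
  linarith [h4.1]

theorem le_sum_vl {k J s m : ℕ} (hk : 1 ≤ k) (hm : 1 ≤ m) {a : Fin s → ℝ} (ha : Cf m a) {η τ : ℝ} (hη : 0 ≤ η)
    (hτ : 0 < τ - η) (hJ : (m : ℝ) * (τ + η) ≤ ((3 : ℝ) ^ J) ^ k) :
    Pa k a * ((τ + η) ^ ((s : ℝ) / k) - (τ - η) ^ ((s : ℝ) / k)) ≤ ∑ b ∈ bs J s, vl k a b η τ := by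
  have hm0 : (0 : ℝ) < m := by exact_mod_cast hm
  have ha0 : ∀ i, 0 < a i := fun i => lt_of_lt_of_le (by positivity) (ha i).1
  rw [sum_vl, ← Bd_diff hk ha0 hτ (by linarith)]
  refine ENNReal.toReal_mono (Un_fin k J a η τ) (measure_mono ?_)
  rintro u ⟨⟨h1, h2⟩, h3⟩
  have h3' : τ - η ≤ ∑ i, a i * u i ^ k := by
    by_contra h
    push Not at h
    exact h3 ⟨h1, h⟩
  have h4 : ∀ i, u i < 3 ^ J := by
    intro i
    have h5 : a i * u i ^ k ≤ ∑ i, a i * u i ^ k :=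
      single_le_sum (f := fun i => a i * u i ^ k) (fun j _ => mul_nonneg (ha0 j).le (pow_nonneg (h1 j).le _)) (mem_univ i)
    have h6 : 1 ≤ (m : ℝ) * a i := by
      have h5 := mul_le_mul_of_nonneg_left (ha i).1 hm0.le
      rwa [mul_one_div_cancel hm0.ne'] at h5
    have h7 : u i ^ k ≤ (m : ℝ) * (a i * u i ^ k) := by
      have : (0 : ℝ) ≤ u i ^ k := pow_nonneg (h1 i).le _
      nlinarith
    have h8 : (m : ℝ) * (a i * u i ^ k) < (m : ℝ) * (τ + η) := by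
      apply mul_lt_mul_of_pos_left _ hm0
      linarith
    have h9 : u i ^ k < ((3 : ℝ) ^ J) ^ k := by linarith
    exact lt_of_pow_lt_pow_left₀ k (by positivity) h9
  -- the blocks
  have h5 : ∀ i, ∃ c, c ≤ J ∧ (lo c : ℝ) ≤ u i ∧ u i < 3 ^ c := by
    intro i
    obtain ⟨c, hc1, hc2⟩ := exists_blk (J := J) (x := ⌊u i⌋₊) (by
      rw [Nat.floor_lt (h1 i).le]
      push_cast
      exact h4 i)
    unfold blk at hc2
    rw [Finset.mem_Ico] at hc2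
    refine ⟨c, hc1, (Nat.le_floor_iff (h1 i).le).1 hc2.1, ?_⟩
    have := (Nat.floor_lt (h1 i).le).1 hc2.2
    push_cast at this
    exact this
  choose c hc1 hc2 using h5
  unfold Un
  rw [Set.mem_iUnion₂]
  refine ⟨c, mem_bs.2 hc1, hc2, ?_⟩
  rw [abs_le]
  constructor <;> linarith

/-! ### monotonicity in the window -/

theorem vl_mono (k : ℕ) {s : ℕ} (a : Fin s → ℝ) (b : Fin s → ℕ) {η η' τ τ' : ℝ} (h : |τ - τ'| ≤ η' - η) :
    vl k a b η τ ≤ vl k a b η' τ' := by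
  unfold vl
  apply ENNReal.toReal_mono
  · refine ne_top_of_le_ne_top ?_ (measure_mono (t := Set.Icc (fun i => (lo (b i) : ℝ)) (fun i => (3:ℝ) ^ b i)) ?_)
    · exact (Bornology.IsBounded.measure_lt_top (Metric.isBounded_Icc _ _)).ne
    · rintro u ⟨hu, _⟩
      exact ⟨fun i => (hu i).1, fun i => (hu i).2.le⟩
  · apply measure_mono
    rintro u ⟨hu1, hu2⟩
    refine ⟨hu1, ?_⟩
    rw [abs_le] at hu2 h ⊢
    constructor <;> linarith [hu2.1, hu2.2, h.1, h.2]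

theorem cn_mono (k : ℕ) {s : ℕ} (a : Fin s → ℝ) (b : Fin s → ℕ) {η η' τ τ' : ℝ} (h : |τ - τ'| ≤ η' - η) :
    (cn k a b η τ : ℝ) ≤ cn k a b η' τ' := by
  have : cn k a b η τ ≤ cn k a b η' τ' := by
    unfold cn
    apply Finset.card_le_card
    intro x hx
    rw [Finset.mem_filter] at hx ⊢
    refine ⟨hx.1, ?_⟩
    have h23 := hx.2
    rw [abs_le] at h23 h ⊢
    constructor <;> linarith [h23.1, h23.2, h.1, h.2]
  exact_mod_cast this

open Filter Topology in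
/-- the expected number for the whole problem -/
theorem exp_bound {ρ η ε : ℝ} (hρ : 1 ≤ ρ) (hη : 0 < η) (hη1 : η < 1) (hε : 0 < ε) :
    ∃ κ : ℝ, 0 < κ ∧ κ ≤ 1 / 8 ∧ κ ≤ η / 2 ∧ η + κ ≤ 1 ∧ ∃ τ₀ : ℝ, 4 ≤ τ₀ ∧ ∀ P : ℝ, 0 ≤ P → ∀ τ : ℝ, τ₀ ≤ τ →
      P * ((τ + (η + κ) + κ) ^ ρ - (τ - (η + κ)) ^ ρ) ≤ (1 + ε) * (2 * η * (P * ρ) * τ ^ (ρ - 1)) ∧
      (1 - ε) * (2 * η * (P * ρ) * τ ^ (ρ - 1)) ≤ P * ((τ + (η - κ)) ^ ρ - (τ - (η - κ)) ^ ρ) := by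
  set κ : ℝ := min (min ε 1 * η) (1 - η) / 8 with hκ
  have hmin : 0 < min ε 1 := lt_min hε one_pos
  have hκ0 : 0 < κ := by
    have : 0 < min (min ε 1 * η) (1 - η) := lt_min (mul_pos hmin hη) (by linarith)
    positivity
  have hκ1 : κ ≤ (1 - η) / 8 := by rw [hκ]; have := min_le_right (min ε 1 * η) (1 - η); linarith
  have hκ2 : κ ≤ min ε 1 * η / 8 := by rw [hκ]; have := min_le_left (min ε 1 * η) (1 - η); linarith
  have hκε : κ ≤ ε * η / 8 := by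
    have := mul_le_mul_of_nonneg_right (min_le_left ε 1) hη.le
    linarith
  have hκη : κ ≤ η / 8 := by
    have := mul_le_mul_of_nonneg_right (min_le_right ε 1) hη.le
    linarith
  have hlim : ∀ c : ℝ, Tendsto (fun τ : ℝ => ((τ + c) / τ) ^ (ρ - 1)) atTop (𝓝 1) := by
    intro c
    have h2 : Tendsto (fun τ : ℝ => (τ + c) / τ) atTop (𝓝 1) := by
      have h3 : Tendsto (fun τ : ℝ => 1 + c / τ) atTop (𝓝 (1 + 0)) :=
        tendsto_const_nhds.add (tendsto_const_nhds.div_atTop tendsto_id)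
      rw [add_zero] at h3
      refine h3.congr' ?_
      filter_upwards [eventually_gt_atTop 0] with τ hτ
      field_simp
    have h4 := h2.rpow_const (p := ρ - 1) (Or.inl one_ne_zero)
    rwa [Real.one_rpow] at h4
  have hlt : (1 : ℝ) < (1 + ε) * (2 * η) / (2 * η + 3 * κ) := by
    rw [one_lt_div (by positivity)]
    nlinarith
  have hlt2 : (1 - ε) * (2 * η) / (2 * (η - κ)) < 1 := by
    rw [div_lt_one (by linarith)]
    nlinarith
  have h5 : ∀ᶠ τ : ℝ in atTop, ((τ + 2) / τ) ^ (ρ - 1) ≤ (1 + ε) * (2 * η) / (2 * η + 3 * κ) :=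
    ((hlim 2).eventually (gt_mem_nhds hlt)).mono fun n hn => le_of_lt hn
  have h6 : ∀ᶠ τ : ℝ in atTop, (1 - ε) * (2 * η) / (2 * (η - κ)) ≤ ((τ + (-1)) / τ) ^ (ρ - 1) :=
    ((hlim (-1)).eventually (lt_mem_nhds hlt2)).mono fun n hn => le_of_lt hn
  obtain ⟨τ₁, hτ₁⟩ := eventually_atTop.1 (h5.and h6)
  refine ⟨κ, hκ0, by linarith, by linarith, by linarith, max τ₁ 4, le_max_right _ _, fun P hP τ hτ => ?_⟩
  have hτ4 : 4 ≤ τ := (le_max_right _ _).trans hτ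
  have hτ0 : 0 < τ := by linarith
  obtain ⟨h7, h8⟩ := hτ₁ τ ((le_max_left _ _).trans hτ)
  constructor
  · rw [Real.div_rpow (by linarith) hτ0.le, div_le_iff₀ (Real.rpow_pos_of_pos hτ0 _)] at h7
    have h9 := WS.bern_upper (a := τ - (η + κ)) (b := τ + (η + κ) + κ) (ρ := ρ) (by linarith) (by linarith) hρ
    have h10 : (τ + (η + κ) + κ) ^ (ρ - 1) ≤ (τ + 2) ^ (ρ - 1) :=
      Real.rpow_le_rpow (by linarith) (by linarith) (by linarith)
    have h11 : (τ + (η + κ) + κ) - (τ - (η + κ)) = 2 * η + 3 * κ := by ring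
    rw [h11] at h9
    have h12 : ρ * (τ + (η + κ) + κ) ^ (ρ - 1) * (2 * η + 3 * κ) ≤
        ρ * ((1 + ε) * (2 * η) / (2 * η + 3 * κ) * τ ^ (ρ - 1)) * (2 * η + 3 * κ) := by
      have h13 := h10.trans h7
      gcongr
    have h14 : ρ * ((1 + ε) * (2 * η) / (2 * η + 3 * κ) * τ ^ (ρ - 1)) * (2 * η + 3 * κ) =
        (1 + ε) * (2 * η * ρ * τ ^ (ρ - 1)) := by
      have : (2 * η + 3 * κ) ≠ 0 := by positivity
      field_simp
    rw [h14] at h12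
    calc P * ((τ + (η + κ) + κ) ^ ρ - (τ - (η + κ)) ^ ρ) ≤ P * ((1 + ε) * (2 * η * ρ * τ ^ (ρ - 1))) :=
          mul_le_mul_of_nonneg_left (h9.trans h12) hP
      _ = _ := by ring
  · rw [Real.div_rpow (by linarith) hτ0.le, le_div_iff₀ (Real.rpow_pos_of_pos hτ0 _)] at h8
    have h9 := WS.bern_lower (a := τ - (η - κ)) (b := τ + (η - κ)) (ρ := ρ) (by linarith) (by linarith) hρ
    have h10 : (τ + (-1)) ^ (ρ - 1) ≤ (τ - (η - κ)) ^ (ρ - 1) :=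
      Real.rpow_le_rpow (by linarith) (by linarith) (by linarith)
    have h11 : (τ + (η - κ)) - (τ - (η - κ)) = 2 * (η - κ) := by ring
    rw [h11] at h9
    have hηκ : 0 < 2 * (η - κ) := by linarith
    have h12 : ρ * ((1 - ε) * (2 * η) / (2 * (η - κ)) * τ ^ (ρ - 1)) * (2 * (η - κ)) ≤
        ρ * (τ - (η - κ)) ^ (ρ - 1) * (2 * (η - κ)) := by
      have h13 := h8.trans h10
      gcongr
    have h14 : ρ * ((1 - ε) * (2 * η) / (2 * (η - κ)) * τ ^ (ρ - 1)) * (2 * (η - κ)) =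
        (1 - ε) * (2 * η * ρ * τ ^ (ρ - 1)) := by
      have : η - κ ≠ 0 := (by linarith : 0 < η - κ).ne'
      field_simp
    rw [h14] at h12
    calc (1 - ε) * (2 * η * (P * ρ) * τ ^ (ρ - 1)) = P * ((1 - ε) * (2 * η * ρ * τ ^ (ρ - 1))) := by ring
      _ ≤ _ := mul_le_mul_of_nonneg_left (h12.trans h9) hP

end Pool.Agent.K7.H74.AG
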