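import Pool.Agent.K7.H74.AG.FinB

set_option autoImplicit false

/-! # Final step, part C: one scale -/

open MeasureTheory Finset Filter

namespace Pool.Agent.K7.H74.AG

open Pool.Agent.K7.H74.AF (lo blk Box mx e bs mem_bs card_bs mx_le lo_zero lo_succ exists_blk lo_ge mx_perm poly_small)

theorem card_le_vol {E : Set ℝ} {ω C : ℝ} (hC : 0 ≤ C) (Z : Finset ℕ)
    (hZ : ∀ n ∈ Z, ∃ c : ℝ, (n : ℝ) ≤ c ∧ c + ω ≤ n + 1 ∧ Set.Ico c (c + ω) ⊆ E) (hE : volume E ≤ ENNReal.ofReal C)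
    (hω : 0 ≤ ω) : (Z.card : ℝ) * ω ≤ C := by
  choose! c hc1 hc2 hc3 using hZ
  have h1 : volume (⋃ n ∈ Z, Set.Ico (c n) (c n + ω)) = Z.card * ENNReal.ofReal ω := by
    rw [measure_biUnion_finset]
    · have h2 : ∀ n ∈ Z, volume (Set.Ico (c n) (c n + ω)) = ENNReal.ofReal ω := by
        intro n _
        rw [Real.volume_Ico]
        congr 1
        ring
      rw [Finset.sum_congr rfl h2, Finset.sum_const, nsmul_eq_mul]
    · intro a ha b hb hab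
      rw [Function.onFun, Set.disjoint_left]
      rintro t ⟨h3, h4⟩ ⟨h5, h6⟩
      have ha1 := hc1 a ha
      have ha2 := hc2 a ha
      have hb1 := hc1 b hb
      have hb2 := hc2 b hb
      rcases Nat.lt_or_gt_of_ne hab with h | h
      · have : (a:ℝ) + 1 ≤ b := by exact_mod_cast h
        linarith
      · have : (b:ℝ) + 1 ≤ a := by exact_mod_cast h
        linarith
    · intro n _
      exact measurableSet_Ico
  have h2 : (⋃ n ∈ Z, Set.Ico (c n) (c n + ω)) ⊆ E := by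
    intro t ht
    rw [Set.mem_iUnion₂] at ht
    obtain ⟨n, hn, ht⟩ := ht
    exact hc3 n hn ht
  have h3 := (measure_mono h2).trans hE
  rw [h1, ← ENNReal.ofReal_natCast, ← ENNReal.ofReal_mul (Nat.cast_nonneg _)] at h3
  exact (ENNReal.ofReal_le_ofReal_iff hC).1 h3

/-- an interval around `τ` contains an interval of half the length in `[n, n + 1]` -/
theorem half_interval {E : Set ℝ} {n : ℕ} {τ ω : ℝ} (hω : 0 ≤ ω) (hω1 : ω ≤ 1 / 2) (h1 : (n : ℝ) ≤ τ) (h2 : τ ≤ n + 1)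
    (h : ∀ τ' : ℝ, |τ - τ'| ≤ ω → τ' ∈ E) : ∃ c : ℝ, (n : ℝ) ≤ c ∧ c + ω ≤ n + 1 ∧ Set.Ico c (c + ω) ⊆ E := by
  rcases le_or_gt τ ((n : ℝ) + 1 / 2) with h3 | h3
  · refine ⟨τ, h1, by linarith, ?_⟩
    rintro t ⟨h4, h5⟩
    apply h
    rw [abs_le]
    constructor <;> linarith
  · refine ⟨τ - ω, by linarith, by linarith, ?_⟩
    rintro t ⟨h4, h5⟩
    apply h
    rw [abs_le]
    constructor <;> linarith

/-- the expected number -/
noncomputable def ex (k : ℕ) {s : ℕ} (a : Fin s → ℝ) (η τ : ℝ) : ℝ :=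
  2 * η * (Pa k a * ((s : ℝ) / k)) * τ ^ ((s : ℝ) / k - 1)

/-- the integer `n` is bad: for some `τ` in `[n, n + 1]` the number of solutions is not near the expected number -/
def Bad (k : ℕ) {s : ℕ} (a : Fin s → ℝ) (η ε : ℝ) (n : ℕ) : Prop :=
  ∃ τ : ℝ, (n : ℝ) ≤ τ ∧ τ ≤ n + 1 ∧ ε * ex k a η τ < |(num k a η τ : ℝ) - ex k a η τ|

open Classical in
/-- the bad numbers at the scale `J` -/
noncomputable def SJ (k m : ℕ) {s : ℕ} (a : Fin s → ℝ) (η ε : ℝ) (J : ℕ) : Finset ℕ :=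
  (Finset.range ((3 ^ J) ^ k)).filter fun n => (3 ^ (J - 1)) ^ k ≤ m * (n + 3) ∧ m * (n + 3) < (3 ^ J) ^ k ∧ Bad k a η ε n

theorem bad_scale {k j m : ℕ} (hk : 2 ≤ k) (hj : 1 ≤ j) (hm : 1 ≤ m) {a : Fin (k + j) → ℝ} (ha : Cf m a) (hP : 0 < Pa k a)
    {η ε δ e : ℝ} (hη : 0 < η) (hη1 : η < 1) (hε : 0 < ε) (hδ : 0 < δ) (hδ1 : δ ≤ 1)
    (he : 0 < e) {κ : ℝ} (hκ0 : 0 < κ) (hκ1 : κ ≤ 1 / 8) (hκη : κ ≤ η / 2) {τ₀ : ℝ} (hτ₀ : 4 ≤ τ₀)
    (hκ : ∀ τ : ℝ, τ₀ ≤ τ →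
      Pa k a * ((τ + (η + κ) + κ) ^ (((k + j : ℕ) : ℝ) / k) - (τ - (η + κ)) ^ (((k + j : ℕ) : ℝ) / k)) ≤
        (1 + ε / 2) * (2 * η * (Pa k a * (((k + j : ℕ) : ℝ) / k)) * τ ^ (((k + j : ℕ) : ℝ) / k - 1)) ∧
      (1 - ε / 2) * (2 * η * (Pa k a * (((k + j : ℕ) : ℝ) / k)) * τ ^ (((k + j : ℕ) : ℝ) / k - 1)) ≤
        Pa k a * ((τ + (η - κ)) ^ (((k + j : ℕ) : ℝ) / k) - (τ - (η - κ)) ^ (((k + j : ℕ) : ℝ) / k)))
    (hT : ∀ σ : Equiv.Perm (Fin (k + j)), TT k j δ e (η + κ / 2) (a ∘ σ))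
    (hL : ∀ σ : Equiv.Perm (Fin (k + j)), LL k j δ e (η - κ / 2) (a ∘ σ)) :
    ∃ C : ℝ, 0 < C ∧ ∃ J₀ : ℕ, ∀ J : ℕ, J₀ ≤ J →
      ((SJ k m a η ε J).card : ℝ) ≤ C * ((3 : ℝ) ^ J) ^ ((k : ℝ) - 2 ^ j / 2 + e + 2 ^ j * δ + e) := by
  classical
  have hk0 : (0 : ℝ) < k := by exact_mod_cast (by omega : 0 < k)
  have hj0 : (1 : ℝ) ≤ j := by exact_mod_cast hj
  have hm0 : (0 : ℝ) < m := by exact_mod_cast hm
  have hm1 : (1 : ℝ) ≤ m := by exact_mod_cast hm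
  have ha0 : ∀ i, 0 < a i := fun i => lt_of_lt_of_le (by positivity) (ha i).1
  choose Cσ hCσ using hT
  choose Dσ hDσ using hL
  set C : ℕ := 1 + (∑ σ, Cσ σ + ∑ σ, Dσ σ) with hC
  have hCle : ∀ σ, Cσ σ ≤ C := by
    intro σ
    have := Finset.single_le_sum (f := Cσ) (fun _ _ => Nat.zero_le _) (Finset.mem_univ σ)
    omega
  have hDle : ∀ σ, Dσ σ ≤ C := by
    intro σ
    have := Finset.single_le_sum (f := Dσ) (fun _ _ => Nat.zero_le _) (Finset.mem_univ σ)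
    omega
  have hC1 : (1 : ℝ) ≤ C := by exact_mod_cast (by omega : 1 ≤ C)
  have hC0 : (0 : ℝ) < C := by linarith
  -- the bounds for all boxes
  have hbox : ∀ (J l : ℕ) (b : Fin (k + j) → ℕ), b ∈ bs J (k + j) → C * ((3 : ℝ) ^ J) ^ ((j : ℝ) - δ) ≤ 2 ^ l →
      volume (Ex k a b (η + κ / 2) l) ≤
        ENNReal.ofReal (C * ((3 : ℝ) ^ J) ^ ((k : ℝ) - 2 ^ j / 2 + e) * (((3 : ℝ) ^ J) ^ (j : ℝ) / 2 ^ l) ^ (2 ^ j)) := by
    intro J l b hb hl
    set σ := Tuple.sort b with hσ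
    have h1 := hCσ σ (b ∘ σ) (Tuple.monotone_sort b) J l ((mx_perm b σ).trans (mx_le hb)) (by
      refine le_trans ?_ hl
      have : (Cσ σ : ℝ) ≤ C := by exact_mod_cast hCle σ
      gcongr)
    rw [Ex_perm] at h1
    refine h1.trans (ENNReal.ofReal_le_ofReal ?_)
    have : (Cσ σ : ℝ) ≤ C := by exact_mod_cast hCle σ
    gcongr
  have hboxD : ∀ (J l : ℕ) (b : Fin (k + j) → ℕ), b ∈ bs J (k + j) → C * ((3 : ℝ) ^ J) ^ ((j : ℝ) - δ) ≤ 2 ^ l →
      volume (Df k a b (η - κ / 2) l) ≤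
        ENNReal.ofReal (C * ((3 : ℝ) ^ J) ^ ((k : ℝ) - 2 ^ j / 2 + e) * (((3 : ℝ) ^ J) ^ (j : ℝ) / 2 ^ l) ^ (2 ^ j)) := by
    intro J l b hb hl
    set σ := Tuple.sort b with hσ
    have h1 := hDσ σ (b ∘ σ) (Tuple.monotone_sort b) J l ((mx_perm b σ).trans (mx_le hb)) (by
      refine le_trans ?_ hl
      have : (Dσ σ : ℝ) ≤ C := by exact_mod_cast hDle σ
      gcongr)
    rw [Df_perm] at h1
    refine h1.trans (ENNReal.ofReal_le_ofReal ?_)
    have : (Dσ σ : ℝ) ≤ C := by exact_mod_cast hDle σ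
    gcongr
  set ρ : ℝ := ((k + j : ℕ) : ℝ) / k with hρ
  have hρ1 : ρ - 1 = (j : ℝ) / k := by
    rw [hρ]; push_cast; field_simp; ring
  have hρ0 : 1 ≤ ρ := by
    have : 0 ≤ (j : ℝ) / k := by positivity
    linarith
  set V : ℝ := Pa k a with hVdef
  -- the constant in the lower bound for the expected number
  set c₁ : ℝ := 2 * η * (V * ρ) * (1 / (4 * (m : ℝ))) ^ ((j : ℝ) / k) / 3 ^ j with hc₁
  have hc₁0 : 0 < c₁ := by positivity
  -- large `J`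
  obtain ⟨J₁, hJ₁⟩ := poly_small (k + j) (A := 4 * C / (ε * c₁)) hδ
  obtain ⟨J₂, hJ₂⟩ := poly_small (k + j) (A := 1) he
  obtain ⟨n₀, hn₀⟩ := exists_nat_gt τ₀
  refine ⟨2 * (C / (κ / 4)), by positivity, max (max J₁ J₂) (m * (n₀ + 3) + 1), fun J hJ => ?_⟩
  have hJ1 : J₁ ≤ J := (le_max_left _ _).trans ((le_max_left _ _).trans hJ)
  have hJ2 : J₂ ≤ J := (le_max_right _ _).trans ((le_max_left _ _).trans hJ)
  have hJ3 : m * (n₀ + 3) + 1 ≤ J := (le_max_right _ _).trans hJ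
  set Z : ℝ := (3 : ℝ) ^ J with hZ
  have hZ1 : 1 ≤ Z := one_le_pow₀ (by norm_num)
  have hZ0 : 0 < Z := by linarith
  -- the level
  have hex : ∃ l : ℕ, C * Z ^ ((j : ℝ) - δ) ≤ 2 ^ l := pow_unbounded_of_one_lt _ (by norm_num : (1:ℝ) < 2) |>.imp fun l hl => hl.le
  set l := Nat.find hex with hl
  have hl1 : C * Z ^ ((j : ℝ) - δ) ≤ 2 ^ l := Nat.find_spec hex
  have hCZ : 1 ≤ C * Z ^ ((j : ℝ) - δ) := by
    have h1 : 1 ≤ Z ^ ((j : ℝ) - δ) := Real.one_le_rpow hZ1 (by linarith)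
    nlinarith
  have hl2 : (2:ℝ) ^ l ≤ 2 * (C * Z ^ ((j : ℝ) - δ)) := by
    rcases Nat.eq_zero_or_pos l with h0 | h0
    · rw [h0, pow_zero]
      linarith
    · obtain ⟨l', hl'⟩ : ∃ l', l = l' + 1 := ⟨l - 1, by omega⟩
      have h1 : ¬ (C * Z ^ ((j : ℝ) - δ) ≤ 2 ^ l') := Nat.find_min hex (by omega)
      push Not at h1
      rw [hl', pow_succ]
      linarith
  -- every bad number gives an interval in an excess or a deficit set
  set G : (Fin (k + j) → ℕ) → Finset ℕ := fun b => (SJ k m a η ε J).filter fun n : ℕ =>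
      ∃ c : ℝ, (n : ℝ) ≤ c ∧ c + κ / 4 ≤ n + 1 ∧ Set.Ico c (c + κ / 4) ⊆ Ex k a b (η + κ / 2) l with hG
  set H : (Fin (k + j) → ℕ) → Finset ℕ := fun b => (SJ k m a η ε J).filter fun n : ℕ =>
      ∃ c : ℝ, (n : ℝ) ≤ c ∧ c + κ / 4 ≤ n + 1 ∧ Set.Ico c (c + κ / 4) ⊆ Df k a b (η - κ / 2) l with hH
  have hcov : SJ k m a η ε J ⊆ (bs J (k + j)).biUnion fun b => G b ∪ H b := by
    intro n hn
    have hn' := hn
    unfold SJ at hn'
    rw [Finset.mem_filter, Finset.mem_range] at hn'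
    obtain ⟨hn1, hn2, hn3, τ, hτ1, hτ2, hτ3⟩ := hn'
    have hn4 : (m : ℝ) * ((n : ℝ) + 3) < ((3 : ℝ) ^ J) ^ k := by exact_mod_cast hn3
    have hn5 : ((3 : ℝ) ^ (J - 1)) ^ k ≤ (m : ℝ) * ((n : ℝ) + 3) := by exact_mod_cast hn2
    have hn6 : n₀ ≤ n := by
      have h1 : J - 1 < 3 ^ (J - 1) := Nat.lt_pow_self (by norm_num)
      have h2 : 3 ^ (J - 1) ≤ (3 ^ (J - 1)) ^ k := Nat.le_self_pow (by omega) _
      have h3 : m * (n₀ + 3) ≤ m * (n + 3) := by omega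
      have h4 := Nat.le_of_mul_le_mul_left h3 (by omega : 0 < m)
      omega
    have hnn : (n₀ : ℝ) ≤ n := by exact_mod_cast hn6
    have hττ : τ₀ ≤ τ := by linarith
    have hτ4 : 4 ≤ τ := by linarith
    have hn40 : (4 : ℝ) < n := by linarith
    have hbig : ∀ η' : ℝ, η' ≤ 2 → (m : ℝ) * (τ + η') ≤ ((3 : ℝ) ^ J) ^ k := by
      intro η' hη'
      have : (m : ℝ) * (τ + η') ≤ (m : ℝ) * ((n : ℝ) + 3) := mul_le_mul_of_nonneg_left (by linarith) hm0.le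
      linarith
    set E : ℝ := ex k a η τ with hE
    have hEeq : E = 2 * η * (V * ρ) * τ ^ (ρ - 1) := rfl
    have hτρ : 0 < τ ^ (ρ - 1) := Real.rpow_pos_of_pos (by linarith) _
    have hE0 : 0 < E := by rw [hEeq]; positivity
    obtain ⟨hup, hlow⟩ := hκ τ hττ
    rw [← hEeq] at hup hlow
    -- the lower bound for `E`
    have hElow : c₁ * Z ^ (j : ℝ) ≤ E := by
      rw [hEeq, hρ1, hc₁]
      have h6 : ((((3 : ℝ) ^ (J - 1)) ^ k) * (1 / (4 * m))) ^ ((j : ℝ) / k) ≤ τ ^ ((j : ℝ) / k) := by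
        apply Real.rpow_le_rpow (by positivity) _ (by positivity)
        rw [mul_one_div, div_le_iff₀ (by positivity)]
        nlinarith
      rw [Real.mul_rpow (by positivity) (by positivity), ← Real.rpow_natCast ((3:ℝ) ^ (J - 1)) k, ← Real.rpow_mul (by positivity),
        mul_div_cancel₀ _ hk0.ne'] at h6
      have h7 : ((3 : ℝ) ^ (J - 1)) ^ (j : ℝ) = Z ^ (j : ℝ) / 3 ^ j := by
        rw [Real.rpow_natCast, Real.rpow_natCast, hZ]
        obtain ⟨J', rfl⟩ : ∃ J', J = J' + 1 := ⟨J - 1, by omega⟩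
        rw [Nat.add_sub_cancel, pow_succ, mul_pow]
        field_simp
      rw [h7] at h6
      calc 2 * η * (V * ρ) * (1 / (4 * (m : ℝ))) ^ ((j : ℝ) / k) / 3 ^ j * Z ^ (j : ℝ) =
          2 * η * (V * ρ) * (Z ^ (j : ℝ) / 3 ^ j * (1 / (4 * (m : ℝ))) ^ ((j : ℝ) / k)) := by ring
        _ ≤ _ := mul_le_mul_of_nonneg_left h6 (by positivity)
    -- the number of boxes times the level
    have hsmall : (((J + 1) ^ (k + j) : ℕ) : ℝ) * 2 ^ l ≤ (ε / 2) * E := by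
      have h9 := hJ₁ J hJ1
      rw [div_mul_eq_mul_div, div_le_iff₀ (by positivity)] at h9
      push_cast
      have h11 : Z ^ ((j : ℝ) - δ) * Z ^ δ = Z ^ (j : ℝ) := by
        rw [← Real.rpow_add hZ0]; congr 1; ring
      have h12 : ((J : ℝ) + 1) ^ (k + j) * 2 ^ l ≤ ((J : ℝ) + 1) ^ (k + j) * (2 * (C * Z ^ ((j : ℝ) - δ))) :=
        mul_le_mul_of_nonneg_left hl2 (by positivity)
      refine h12.trans (le_trans ?_ (mul_le_mul_of_nonneg_left hElow (by positivity)))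
      have h13 : (0:ℝ) < Z ^ ((j : ℝ) - δ) := by positivity
      have h15 : (4 * C * ((J : ℝ) + 1) ^ (k + j)) * Z ^ ((j : ℝ) - δ) ≤
          (Z ^ δ * (ε * c₁)) * Z ^ ((j : ℝ) - δ) := mul_le_mul_of_nonneg_right h9 h13.le
      have h16 : (Z ^ δ * (ε * c₁)) * Z ^ ((j : ℝ) - δ) = ε * c₁ * Z ^ (j : ℝ) := by
        rw [← h11]; ring
      rw [h16] at h15
      linarith
    rw [Finset.mem_biUnion]
    rcases lt_abs.1 hτ3 with hr | hr
    · -- many solutions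
      have h1 : (num k a η τ : ℝ) ≤ ∑ b ∈ bs J (k + j), (cn k a b η τ : ℝ) := by
        exact_mod_cast num_le (by omega : 1 ≤ k) hm ha (hbig η (by linarith))
      have h2 : ∑ b ∈ bs J (k + j), vl k a b (η + κ) τ ≤ (1 + ε / 2) * E :=
        (sum_vl_le (by omega) ha0 (by linarith) (c := τ + (η + κ) + κ) (d := τ - (η + κ)) (by linarith) le_rfl
          (by linarith)).trans hup
      have h7 : ∃ b ∈ bs J (k + j), vl k a b (η + κ) τ + 2 ^ l ≤ cn k a b η τ := by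
        by_contra hcon
        push Not at hcon
        have h8 : ∑ b ∈ bs J (k + j), (cn k a b η τ : ℝ) ≤ ∑ b ∈ bs J (k + j), (vl k a b (η + κ) τ + 2 ^ l) :=
          Finset.sum_le_sum fun b hb => (hcon b hb).le
        rw [Finset.sum_add_distrib, Finset.sum_const, card_bs, nsmul_eq_mul] at h8
        linarith
      obtain ⟨b, hb, h20⟩ := h7
      refine ⟨b, hb, Finset.mem_union_left _ ?_⟩
      rw [hG, Finset.mem_filter]
      refine ⟨hn, half_interval (by linarith) (by linarith) hτ1 hτ2 fun τ' hτ' => ?_⟩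
      change vl k a b (η + κ / 2) τ' + 2 ^ l ≤ cn k a b (η + κ / 2) τ'
      have h21 : vl k a b (η + κ / 2) τ' ≤ vl k a b (η + κ) τ :=
        vl_mono k a b (by rw [abs_sub_comm]; linarith)
      have h22 : (cn k a b η τ : ℝ) ≤ cn k a b (η + κ / 2) τ' := cn_mono k a b (by linarith)
      linarith
    · -- few solutions
      have h1 : ∑ b ∈ bs J (k + j), (cn k a b (η - κ / 4) τ : ℝ) ≤ (num k a η τ : ℝ) := by
        exact_mod_cast le_num (by omega : 1 ≤ k) hm ha (by linarith : η - κ / 4 < η) (hbig η (by linarith))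
      have h2 : (1 - ε / 2) * E ≤ ∑ b ∈ bs J (k + j), vl k a b (η - κ) τ :=
        hlow.trans (le_sum_vl (by omega) hm ha (by linarith) (by linarith) (hbig (η - κ) (by linarith)))
      have h7 : ∃ b ∈ bs J (k + j), (cn k a b (η - κ / 4) τ : ℝ) + 2 ^ l ≤ vl k a b (η - κ) τ := by
        by_contra hcon
        push Not at hcon
        have h8 : ∑ b ∈ bs J (k + j), vl k a b (η - κ) τ ≤ ∑ b ∈ bs J (k + j), ((cn k a b (η - κ / 4) τ : ℝ) + 2 ^ l) :=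
          Finset.sum_le_sum fun b hb => (hcon b hb).le
        rw [Finset.sum_add_distrib, Finset.sum_const, card_bs, nsmul_eq_mul] at h8
        linarith
      obtain ⟨b, hb, h20⟩ := h7
      refine ⟨b, hb, Finset.mem_union_right _ ?_⟩
      rw [hH, Finset.mem_filter]
      refine ⟨hn, half_interval (by linarith) (by linarith) hτ1 hτ2 fun τ' hτ' => ?_⟩
      change (cn k a b (η - κ / 2) τ' : ℝ) + 2 ^ l ≤ vl k a b (η - κ / 2) τ'
      have h21 : vl k a b (η - κ) τ ≤ vl k a b (η - κ / 2) τ' := vl_mono k a b (by linarith)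
      have h22 : (cn k a b (η - κ / 2) τ' : ℝ) ≤ cn k a b (η - κ / 4) τ :=
        cn_mono k a b (by rw [abs_sub_comm]; linarith)
      linarith
  -- count
  have h2 : Z ^ (j : ℝ) / 2 ^ l ≤ Z ^ δ := by
    rw [div_le_iff₀ (by positivity)]
    have h3 : Z ^ (j : ℝ) = Z ^ δ * Z ^ ((j : ℝ) - δ) := by rw [← Real.rpow_add hZ0]; congr 1; ring
    rw [h3]
    apply mul_le_mul_of_nonneg_left _ (by positivity)
    have h4 : 0 < Z ^ ((j : ℝ) - δ) := by positivity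
    nlinarith
  have h5 : (Z ^ (j : ℝ) / 2 ^ l) ^ (2 ^ j) ≤ Z ^ (2 ^ j * δ) := by
    refine (pow_le_pow_left₀ (by positivity) h2 _).trans (le_of_eq ?_)
    rw [← Real.rpow_natCast, ← Real.rpow_mul hZ0.le]
    congr 1
    push_cast
    ring
  have h6 : C * Z ^ ((k : ℝ) - 2 ^ j / 2 + e) * (Z ^ (j : ℝ) / 2 ^ l) ^ (2 ^ j) ≤
      C * (Z ^ ((k : ℝ) - 2 ^ j / 2 + e) * Z ^ (2 ^ j * δ)) := by
    rw [mul_assoc]
    gcongr
  rw [← Real.rpow_add hZ0] at h6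
  have hvG : ∀ b ∈ bs J (k + j), ((G b).card : ℝ) ≤ C / (κ / 4) * Z ^ ((k : ℝ) - 2 ^ j / 2 + e + 2 ^ j * δ) := by
    intro b hb
    have h1 := card_le_vol (ω := κ / 4) (C := C * Z ^ ((k : ℝ) - 2 ^ j / 2 + e) * (Z ^ (j : ℝ) / 2 ^ l) ^ (2 ^ j))
      (by positivity) (G b) (fun n hn => (Finset.mem_filter.1 hn).2) (hbox J l b hb hl1) (by linarith)
    have h7 := h1.trans h6
    rw [div_mul_eq_mul_div, le_div_iff₀ (by linarith)]
    linarith
  have hvH : ∀ b ∈ bs J (k + j), ((H b).card : ℝ) ≤ C / (κ / 4) * Z ^ ((k : ℝ) - 2 ^ j / 2 + e + 2 ^ j * δ) := by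
    intro b hb
    have h1 := card_le_vol (ω := κ / 4) (C := C * Z ^ ((k : ℝ) - 2 ^ j / 2 + e) * (Z ^ (j : ℝ) / 2 ^ l) ^ (2 ^ j))
      (by positivity) (H b) (fun n hn => (Finset.mem_filter.1 hn).2) (hboxD J l b hb hl1) (by linarith)
    have h7 := h1.trans h6
    rw [div_mul_eq_mul_div, le_div_iff₀ (by linarith)]
    linarith
  have h1 : ((SJ k m a η ε J).card : ℝ) ≤ ∑ b ∈ bs J (k + j), (((G b).card : ℝ) + ((H b).card : ℝ)) := by
    have h8 := (Finset.card_le_card hcov).trans Finset.card_biUnion_le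
    have h9 : ∑ b ∈ bs J (k + j), (G b ∪ H b).card ≤ ∑ b ∈ bs J (k + j), ((G b).card + (H b).card) :=
      Finset.sum_le_sum fun b _ => Finset.card_union_le _ _
    exact_mod_cast h8.trans h9
  refine h1.trans ((Finset.sum_le_sum fun b hb => add_le_add (hvG b hb) (hvH b hb)).trans ?_)
  rw [Finset.sum_const, card_bs, nsmul_eq_mul]
  push_cast
  have h2 := hJ₂ J hJ2
  rw [one_mul] at h2
  have h3 : Z ^ ((k : ℝ) - 2 ^ j / 2 + e + 2 ^ j * δ + e) = Z ^ ((k : ℝ) - 2 ^ j / 2 + e + 2 ^ j * δ) * Z ^ e :=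
    Real.rpow_add hZ0 _ _
  rw [h3]
  set Y : ℝ := Z ^ ((k : ℝ) - 2 ^ j / 2 + e + 2 ^ j * δ) with hY
  have hY0 : 0 < Y := by positivity
  calc ((J : ℝ) + 1) ^ (k + j) * (C / (κ / 4) * Y + C / (κ / 4) * Y)
      ≤ Z ^ e * (C / (κ / 4) * Y + C / (κ / 4) * Y) := mul_le_mul_of_nonneg_right h2 (by positivity)
    _ = _ := by ring

end Pool.Agent.K7.H74.AG
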