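import Pool.Agent.K7.H74.AG.FinC

set_option autoImplicit false

/-! # Final step, part D: all scales -/

open MeasureTheory Finset Filter

namespace Pool.Agent.K7.H74.AG

open Pool.Agent.K7.H74.AF (lo blk Box mx e bs mem_bs card_bs mx_le lo_zero lo_succ exists_blk lo_ge mx_perm poly_small)

theorem TT_mono {k j : ℕ} {δ δ₂ e η : ℝ} (h : δ₂ ≤ δ) {a : Fin (k + j) → ℝ} (hT : TT k j δ e η a) :
    TT k j δ₂ e η a := by
  obtain ⟨C, hC⟩ := hT
  refine ⟨C, fun b hb J l hJ hl => hC b hb J l hJ (le_trans ?_ hl)⟩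
  have h1 : (1:ℝ) ≤ (3:ℝ) ^ J := one_le_pow₀ (by norm_num)
  have h2 : ((3:ℝ) ^ J) ^ ((j : ℝ) - δ) ≤ ((3:ℝ) ^ J) ^ ((j : ℝ) - δ₂) :=
    Real.rpow_le_rpow_of_exponent_le h1 (by linarith)
  gcongr

theorem LL_mono {k j : ℕ} {δ δ₂ e η : ℝ} (h : δ₂ ≤ δ) {a : Fin (k + j) → ℝ} (hT : LL k j δ e η a) :
    LL k j δ₂ e η a := by
  obtain ⟨C, hC⟩ := hT
  refine ⟨C, fun b hb J l hJ hl => hC b hb J l hJ (le_trans ?_ hl)⟩
  have h1 : (1:ℝ) ≤ (3:ℝ) ^ J := one_le_pow₀ (by norm_num)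
  have h2 : ((3:ℝ) ^ J) ^ ((j : ℝ) - δ) ≤ ((3:ℝ) ^ J) ^ ((j : ℝ) - δ₂) :=
    Real.rpow_le_rpow_of_exponent_le h1 (by linarith)
  gcongr

open Classical in
/-- sum over the scales -/
theorem bad_sum {k m s : ℕ} (hk : 1 ≤ k) (hm : 1 ≤ m) (a : Fin s → ℝ) (η ε : ℝ) (J₂ : ℕ) {N : ℕ} (hN : 1 ≤ N) :
    ∃ JN : ℕ, ((3:ℝ) ^ JN) ^ k ≤ 3 ^ k * (4 * m) * N ∧
      (((Finset.range (N + 1)).filter fun n => Bad k a η ε n).card : ℝ) ≤
        ((3:ℝ) ^ J₂) ^ k + ∑ J ∈ Finset.Ioc J₂ JN, ((SJ k m a η ε J).card : ℝ) := by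
  have hex : ∀ n : ℕ, ∃ J : ℕ, m * (n + 3) < (3 ^ J) ^ k := by
    intro n
    refine ⟨m * (n + 3), ?_⟩
    have h1 : m * (n + 3) < 3 ^ (m * (n + 3)) := Nat.lt_pow_self (by norm_num)
    exact lt_of_lt_of_le h1 (Nat.le_self_pow (by omega) _)
  set JN := Nat.find (hex N) with hJN
  have hJN1 : m * (N + 3) < (3 ^ JN) ^ k := Nat.find_spec (hex N)
  have hmN : 1 ≤ m * (N + 3) := Nat.mul_pos (by omega) (by omega)
  have hJN0 : 1 ≤ JN := by
    by_contra h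
    have h0 : JN = 0 := by omega
    rw [h0] at hJN1
    simp only [pow_zero, one_pow] at hJN1
    omega
  refine ⟨JN, ?_, ?_⟩
  · have h1 : ¬ (m * (N + 3) < (3 ^ (JN - 1)) ^ k) := Nat.find_min (hex N) (by omega)
    push Not at h1
    have h2 : ((3:ℝ) ^ (JN - 1)) ^ k ≤ (m : ℝ) * ((N : ℝ) + 3) := by exact_mod_cast h1
    obtain ⟨J', hJ'⟩ : ∃ J', JN = J' + 1 := ⟨JN - 1, by omega⟩
    rw [hJ'] at h2 ⊢
    rw [Nat.add_sub_cancel] at h2
    have h3 : (m : ℝ) * ((N : ℝ) + 3) ≤ 4 * m * N := by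
      have h4 : (1 : ℝ) ≤ N := by exact_mod_cast hN
      have h5 : (0 : ℝ) ≤ m := Nat.cast_nonneg m
      nlinarith
    rw [pow_succ, mul_pow, mul_comm, mul_assoc]
    exact mul_le_mul_of_nonneg_left (h2.trans h3) (by positivity)
  · have hsub : ((Finset.range (N + 1)).filter fun n => Bad k a η ε n) ⊆
        Finset.range ((3 ^ J₂) ^ k) ∪ (Finset.Ioc J₂ JN).biUnion fun J => SJ k m a η ε J := by
      intro n hn
      rw [Finset.mem_filter, Finset.mem_range] at hn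
      rw [Finset.mem_union]
      have hnm : n < m * (n + 3) := by
        have : 1 * (n + 3) ≤ m * (n + 3) := Nat.mul_le_mul_right _ hm
        omega
      by_cases h : m * (n + 3) < (3 ^ J₂) ^ k
      · left; exact Finset.mem_range.2 (by omega)
      · right
        push Not at h
        set J := Nat.find (hex n) with hJ
        have hJ1 : m * (n + 3) < (3 ^ J) ^ k := Nat.find_spec (hex n)
        have hJ2 : J₂ < J := by
          by_contra h1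
          push Not at h1
          have h2 : (3 ^ J) ^ k ≤ (3 ^ J₂) ^ k :=
            Nat.pow_le_pow_left (Nat.pow_le_pow_right (by norm_num) h1) k
          omega
        have hJ3 : J ≤ JN := by
          apply Nat.find_min' (hex n)
          have : m * (n + 3) ≤ m * (N + 3) := Nat.mul_le_mul_left _ (by omega)
          omega
        have hJ4 : ¬ (m * (n + 3) < (3 ^ (J - 1)) ^ k) := Nat.find_min (hex n) (by omega)
        rw [Finset.mem_biUnion]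
        refine ⟨J, Finset.mem_Ioc.2 ⟨hJ2, hJ3⟩, ?_⟩
        unfold SJ
        rw [Finset.mem_filter, Finset.mem_range]
        exact ⟨by omega, by omega, hJ1, hn.2⟩
    have h1 := (Finset.card_le_card hsub).trans (Finset.card_union_le _ _)
    have h2 := Finset.card_biUnion_le (s := Finset.Ioc J₂ JN) (t := fun J => SJ k m a η ε J)
    rw [Finset.card_range] at h1
    have h3 : ((Finset.range (N + 1)).filter fun n => Bad k a η ε n).card ≤ (3 ^ J₂) ^ k + ∑ J ∈ Finset.Ioc J₂ JN, (SJ k m a η ε J).card := by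
      omega
    exact_mod_cast h3

theorem bad_count {k j m : ℕ} (hk : 2 ≤ k) (hm : 1 ≤ m) {a : Fin (k + j) → ℝ} {η ε δ : ℝ} (hδ : 0 < δ)
    (H : ∀ e : ℝ, 0 < e → ∃ C : ℝ, 0 < C ∧ ∃ J₀ : ℕ, ∀ J : ℕ, J₀ ≤ J →
      ((SJ k m a η ε J).card : ℝ) ≤ C * ((3 : ℝ) ^ J) ^ ((k : ℝ) - 2 ^ j / 2 + e)) :
    ∃ C : ℝ, 0 ≤ C ∧ ∀ N : ℕ, 1 ≤ N →
      (Nat.card {n : ℕ // n ≤ N ∧ Bad k a η ε n} : ℝ) ≤ C * (N : ℝ) ^ max 0 (1 - 2 ^ j / 2 / (k : ℝ) + δ) := by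
  classical
  have hk0 : (0 : ℝ) < k := by exact_mod_cast (by omega : 0 < k)
  have hm0 : (0 : ℝ) < m := by exact_mod_cast hm
  have hcard : ∀ N : ℕ, Nat.card {n : ℕ // n ≤ N ∧ Bad k a η ε n} =
      ((Finset.range (N + 1)).filter fun n => Bad k a η ε n).card := by
    intro N
    apply Nat.subtype_card
    intro n
    rw [Finset.mem_filter, Finset.mem_range, Nat.lt_succ_iff]
  rcases lt_or_ge ((k : ℝ) - 2 ^ j / 2) 0 with hθ | hθ
  · -- no exceptions from some point on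
    set e : ℝ := -((k : ℝ) - 2 ^ j / 2) / 2 with he
    have he0 : 0 < e := by rw [he]; linarith
    obtain ⟨C, hC, J₀, hJ₀⟩ := H e he0
    have h1 : ∃ J₁ : ℕ, ∀ J : ℕ, J₁ ≤ J → 2 * C * ((J : ℝ) + 1) ^ 0 ≤ ((3 : ℝ) ^ J) ^ e := poly_small 0 he0
    obtain ⟨J₁, hJ₁⟩ := h1
    refine ⟨((3:ℝ) ^ max J₀ J₁) ^ k, by positivity, fun N hN => ?_⟩
    obtain ⟨JN, _, h2⟩ := bad_sum (k := k) (by omega) hm a η ε (max J₀ J₁) hN
    rw [hcard]
    have h3 : ∀ J ∈ Finset.Ioc (max J₀ J₁) JN, ((SJ k m a η ε J).card : ℝ) = 0 := by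
      intro J hJ
      rw [Finset.mem_Ioc] at hJ
      have h4 := hJ₀ J ((le_max_left _ _).trans hJ.1.le)
      have h5 := hJ₁ J ((le_max_right _ _).trans hJ.1.le)
      rw [pow_zero, mul_one] at h5
      have h6 : (k : ℝ) - 2 ^ j / 2 + e = -e := by rw [he]; ring
      have h7 : (0:ℝ) < ((3 : ℝ) ^ J) ^ e := by positivity
      rw [h6, Real.rpow_neg (by positivity)] at h4
      have h8 : C * (((3 : ℝ) ^ J) ^ e)⁻¹ < 1 := by
        rw [← div_eq_mul_inv, div_lt_one h7]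
        linarith
      have h9 : (SJ k m a η ε J).card < 1 := by exact_mod_cast lt_of_le_of_lt h4 h8
      have h10 : (SJ k m a η ε J).card = 0 := by omega
      rw [h10, Nat.cast_zero]
    rw [Finset.sum_eq_zero h3, add_zero] at h2
    have hN1 : (1 : ℝ) ≤ N := by exact_mod_cast hN
    have h11 : (1 : ℝ) ≤ (N : ℝ) ^ max 0 (1 - 2 ^ j / 2 / (k : ℝ) + δ) := Real.one_le_rpow hN1 (le_max_left _ _)
    have h12 : (0:ℝ) ≤ ((3:ℝ) ^ max J₀ J₁) ^ k := by positivity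
    nlinarith
  · set e : ℝ := k * δ / 2 with he
    have he0 : 0 < e := by positivity
    obtain ⟨C, hC, J₀, hJ₀⟩ := H e he0
    obtain ⟨J₁, hJ₁⟩ := poly_small (A := 1) 1 he0
    set D : ℝ := (k : ℝ) - 2 ^ j / 2 + e with hD
    have hD0 : 0 < D := by rw [hD]; linarith
    set E : ℝ := 1 - 2 ^ j / 2 / (k : ℝ) + δ with hE
    have hDE : D + e = k * E := by
      rw [hD, hE, he]
      field_simp
      ring
    have hE0 : 0 < E := by
      by_contra h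
      push Not at h
      have : k * E ≤ 0 := mul_nonpos_of_nonneg_of_nonpos hk0.le h
      linarith
    set K : ℕ := max J₀ J₁ with hK
    set M : ℝ := 3 ^ k * (4 * (m : ℝ)) with hM
    have hM0 : 0 < M := by positivity
    refine ⟨((3:ℝ) ^ K) ^ k + C * M ^ E, by positivity, fun N hN => ?_⟩
    obtain ⟨JN, h0, h2⟩ := bad_sum (k := k) (by omega) hm a η ε K hN
    rw [hcard]
    have hN1 : (1 : ℝ) ≤ N := by exact_mod_cast hN
    have hmax : max 0 E = E := max_eq_right hE0.le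
    rw [hmax]
    have hNE : 1 ≤ (N : ℝ) ^ E := Real.one_le_rpow hN1 hE0.le
    set Z : ℝ := (3:ℝ) ^ JN with hZ
    have hZ1 : 1 ≤ Z := one_le_pow₀ (by norm_num)
    have hZE : Z ^ (k * E) ≤ M ^ E * (N : ℝ) ^ E := by
      rw [Real.rpow_mul (by positivity), Real.rpow_natCast, ← Real.mul_rpow (by positivity) (by positivity)]
      exact Real.rpow_le_rpow (by positivity) h0 hE0.le
    have h3 : ∑ J ∈ Finset.Ioc K JN, ((SJ k m a η ε J).card : ℝ) ≤ C * (M ^ E * (N : ℝ) ^ E) := by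
      rcases le_or_gt JN K with h4 | h4
      · rw [Finset.Ioc_eq_empty (by omega), Finset.sum_empty]
        positivity
      · have h5 : ∀ J ∈ Finset.Ioc K JN, ((SJ k m a η ε J).card : ℝ) ≤ C * Z ^ D := by
          intro J hJ
          rw [Finset.mem_Ioc] at hJ
          refine (hJ₀ J ((le_max_left _ _).trans hJ.1.le)).trans ?_
          have h6 : ((3:ℝ) ^ J) ^ D ≤ Z ^ D :=
            Real.rpow_le_rpow (by positivity) (pow_le_pow_right₀ (by norm_num) hJ.2) hD0.le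
          gcongr
        refine (Finset.sum_le_sum h5).trans ?_
        rw [Finset.sum_const, Nat.card_Ioc, nsmul_eq_mul]
        have h7 := hJ₁ JN ((le_max_right _ _).trans h4.le)
        rw [one_mul, pow_one] at h7
        have h8 : ((JN - K : ℕ) : ℝ) ≤ (JN : ℝ) + 1 := by
          have : JN - K ≤ JN + 1 := by omega
          exact_mod_cast this
        calc ((JN - K : ℕ) : ℝ) * (C * Z ^ D) ≤ Z ^ e * (C * Z ^ D) :=
              mul_le_mul_of_nonneg_right (h8.trans h7) (by positivity)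
          _ = C * Z ^ (k * E) := by
              have h11 : Z ^ (D + e) = Z ^ D * Z ^ e := Real.rpow_add (by positivity) D e
              rw [← hDE, h11]; ring
          _ ≤ _ := mul_le_mul_of_nonneg_left hZE hC.le
    have h9 : (0:ℝ) ≤ ((3:ℝ) ^ K) ^ k := by positivity
    calc _ ≤ ((3:ℝ) ^ K) ^ k + C * (M ^ E * (N : ℝ) ^ E) := h2.trans (by linarith)
      _ ≤ ((3:ℝ) ^ K) ^ k * (N : ℝ) ^ E + C * (M ^ E * (N : ℝ) ^ E) := by nlinarith
      _ = _ := by ring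

theorem Pa_pos {k s : ℕ} (hk : 1 ≤ k) (hs : 1 ≤ s) {a : Fin s → ℝ} (ha : ∀ i, 0 < a i) : 0 < Pa k a := by
  have hk0 : (0 : ℝ) < k := by exact_mod_cast (by omega : 0 < k)
  have hs0 : (0 : ℝ) < s := by exact_mod_cast (by omega : 0 < s)
  have h1 := WS.Vs_const (k := k) (s := s) hk hs
  have hG1 : 0 < Real.Gamma (1 + 1 / (k : ℝ)) := Real.Gamma_pos_of_pos (by positivity)
  have hG2 : 0 < Real.Gamma ((s : ℝ) / k) := Real.Gamma_pos_of_pos (by positivity)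
  have h2 : 0 < WS.Vs k s * ((s : ℝ) / k) := by
    rw [h1]; positivity
  have h3 : 0 < (s : ℝ) / k := by positivity
  have h4 := (mul_pos_iff_of_pos_right h3).1 h2
  exact mul_pos h4 (Real.rpow_pos_of_pos (Finset.prod_pos fun i _ => ha i) _)

theorem ex_nonneg {k s : ℕ} {a : Fin s → ℝ} (ha : ∀ i, 0 < a i) {η τ : ℝ} (hη : 0 ≤ η) (hτ : 0 ≤ τ) : 0 ≤ ex k a η τ := by
  unfold ex
  have := Pa_nonneg (k := k) ha
  have h2 := Real.rpow_nonneg hτ ((s : ℝ) / k - 1)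
  positivity

/-- **The exceptional numbers, for almost all coefficients in `[1 / m, m]`.** -/
theorem bad_ae {k j m : ℕ} (hk : 2 ≤ k) (hj : 1 ≤ j) (hm : 1 ≤ m) {η : ℝ} (hη : 0 < η) (hη1 : η < 1) (hT : StT) (hAe : StAe) :
    ∀ᵐ a ∂(cub m (k + j)), ∀ ε : ℝ, 0 < ε → ∀ δ : ℝ, 0 < δ → ∃ C : ℝ, 0 ≤ C ∧ ∀ N : ℕ, 1 ≤ N →
      (Nat.card {n : ℕ // n ≤ N ∧ Bad k a η ε n} : ℝ) ≤ C * (N : ℝ) ^ max 0 (1 - 2 ^ j / 2 / (k : ℝ) + δ) := by
  have hk0 : (0 : ℝ) < k := by exact_mod_cast (by omega : 0 < k)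
  have hm0 : (0 : ℝ) < m := by exact_mod_cast hm
  have hρ : 1 ≤ ((k + j : ℕ) : ℝ) / k := by
    rw [le_div_iff₀ hk0]
    push_cast
    have : (0:ℝ) ≤ j := Nat.cast_nonneg j
    linarith
  -- the parameters
  have hpar := fun m' : ℕ => exp_bound (ε := (1 / ((m' : ℝ) + 1)) / 2) hρ hη hη1 (by positivity)
  choose κ hκ0 hκ1 hκη hκ2 τ₀ hτ₀ hκ using hpar
  have hδT : ∀ m' : ℕ, ∃ δ : ℝ, 0 < δ ∧ ∀ η : ℝ, 0 < η → η ≤ 1 →
      ∀ᵐ a ∂(cub m (k + j)), TT k j δ (1 / ((m' : ℝ) + 1)) η a ∧ LL k j δ (1 / ((m' : ℝ) + 1)) η a :=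
    fun m' => hT k j m _ hk hj hm (by positivity)
  choose dT hdT0 hdT using hδT
  have hall : ∀ᵐ a ∂(cub m (k + j)), ∀ m' m'' : ℕ, ∀ σ : Equiv.Perm (Fin (k + j)),
      TT k j (dT m'') (1 / ((m'' : ℝ) + 1)) (η + κ m' / 2) (a ∘ σ) ∧
      LL k j (dT m'') (1 / ((m'' : ℝ) + 1)) (η - κ m' / 2) (a ∘ σ) := by
    rw [ae_all_iff]
    intro m'
    rw [ae_all_iff]
    intro m''
    have h1 := hκ0 m'
    have h2 := hκη m'
    have h3 := hκ2 m'
    refine hAe.2.1 m (k + j) (fun a => TT k j (dT m'') (1 / ((m'' : ℝ) + 1)) (η + κ m' / 2) a ∧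
      LL k j (dT m'') (1 / ((m'' : ℝ) + 1)) (η - κ m' / 2) a) ?_
    filter_upwards [hdT m'' (η + κ m' / 2) (by linarith) (by linarith), hdT m'' (η - κ m' / 2) (by linarith) (by linarith)]
      with a h4 h5
    exact ⟨h4.1, h5.2⟩
  filter_upwards [hall, hAe.2.2.1 m (k + j)] with a h1 ha ε hε δ hδ
  have ha0 : ∀ i, 0 < a i := fun i => lt_of_lt_of_le (by positivity) (ha i).1
  have hP : 0 < Pa k a := Pa_pos (by omega) (by omega) ha0
  obtain ⟨m', hm'⟩ := exists_nat_one_div_lt hε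
  have hcount := bad_count (k := k) (j := j) hk hm (a := a) (η := η) (ε := 1 / ((m' : ℝ) + 1)) hδ (fun e he => by
    have hpos : 0 < e / (2 + 2 ^ j) := by positivity
    obtain ⟨m'', hm''⟩ := exists_nat_one_div_lt hpos
    set e' : ℝ := 1 / ((m'' : ℝ) + 1) with he'
    have he'0 : 0 < e' := by positivity
    set δ₂ : ℝ := min (dT m'') (min e' 1) with hδ₂
    have hδ₂0 : 0 < δ₂ := lt_min (hdT0 m'') (lt_min he'0 one_pos)
    have hδ₂1 : δ₂ ≤ 1 := (min_le_right _ _).trans (min_le_right _ _)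
    have hδ₂e : δ₂ ≤ e' := (min_le_right _ _).trans (min_le_left _ _)
    obtain ⟨C, hC, J₀, hJ₀⟩ := bad_scale hk hj hm ha hP (ε := 1 / ((m' : ℝ) + 1)) (δ := δ₂) (e := e') hη hη1 (by positivity)
      hδ₂0 hδ₂1 he'0 (hκ0 m') (hκ1 m') (hκη m') (hτ₀ m') (fun τ hτ => hκ m' (Pa k a) hP.le τ hτ)
      (fun σ => TT_mono (min_le_left _ _) (h1 m' m'' σ).1) (fun σ => LL_mono (min_le_left _ _) (h1 m' m'' σ).2)
    refine ⟨C, hC, J₀, fun J hJ => (hJ₀ J hJ).trans ?_⟩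
    have h3 : (1:ℝ) ≤ (3:ℝ) ^ J := one_le_pow₀ (by norm_num)
    have h4 : (k : ℝ) - 2 ^ j / 2 + e' + 2 ^ j * δ₂ + e' ≤ (k : ℝ) - 2 ^ j / 2 + e := by
      have h5 : 2 ^ j * δ₂ ≤ 2 ^ j * e' := mul_le_mul_of_nonneg_left hδ₂e (by positivity)
      rw [lt_div_iff₀ (by positivity)] at hm''
      nlinarith
    have h6 := Real.rpow_le_rpow_of_exponent_le h3 h4
    exact mul_le_mul_of_nonneg_left h6 hC.le)
  obtain ⟨C, hC, hCN⟩ := hcount
  refine ⟨C, hC, fun N hN => le_trans ?_ (hCN N hN)⟩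
  have h3 : Nat.card {n : ℕ // n ≤ N ∧ Bad k a η ε n} ≤ Nat.card {n : ℕ // n ≤ N ∧ Bad k a η (1 / ((m' : ℝ) + 1)) n} := by
    refine Nat.card_mono ((Set.finite_Iic N).subset fun n hn => hn.1) ?_
    rintro n ⟨h4, τ, h5, h6, h7⟩
    refine ⟨h4, τ, h5, h6, lt_of_le_of_lt ?_ h7⟩
    exact mul_le_mul_of_nonneg_right hm'.le (ex_nonneg ha0 hη.le ((Nat.cast_nonneg n).trans h5))
  exact_mod_cast h3

/-- from windows near `η` to the window `η` -/
theorem bad_between {k s m : ℕ} (hk : 1 ≤ k) (hm : 1 ≤ m) {a : Fin s → ℝ} (ha : Cf m a) {η₁ η η₂ ε : ℝ} (h0 : 0 < η₁)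
    (h1 : η₁ < η) (h2 : η < η₂) (hε : 0 < ε) (h3 : (1 + ε / 2) * η₂ ≤ (1 + ε) * η) (h4 : (1 - ε) * η ≤ (1 - ε / 2) * η₁)
    {n : ℕ} (hb : Bad k a η ε n) : Bad k a η₁ (ε / 2) n ∨ Bad k a η₂ (ε / 2) n := by
  have hm0 : (0 : ℝ) < m := by exact_mod_cast hm
  have ha0 : ∀ i, 0 < a i := fun i => lt_of_lt_of_le (by positivity) (ha i).1
  obtain ⟨τ, h5, h6, h7⟩ := hb
  have hτ : 0 ≤ τ := (Nat.cast_nonneg n).trans h5
  have hmono : ∀ {x y : ℝ}, x ≤ y → (num k a x τ : ℝ) ≤ num k a y τ := by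
    intro x y hxy
    have : num k a x τ ≤ num k a y τ := by
      obtain ⟨J, hJ⟩ := pow_unbounded_of_one_lt ((m : ℝ) * (τ + y)) (by norm_num : (1 : ℝ) < 3)
      unfold num
      refine Nat.card_mono ?_ ?_
      · refine ((bs J s).biUnion fun b => Box b).finite_toSet.subset ?_
        intro x hx
        obtain ⟨b, hb1, hb2⟩ := sub_boxes hk hm ha (hJ.le.trans (le_self_pow₀ (one_le_pow₀ (by norm_num)) (by omega))) hx
        exact Finset.mem_coe.2 (Finset.mem_biUnion.2 ⟨b, hb1, hb2⟩)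
      · intro z hz
        exact lt_of_lt_of_le hz hxy
    exact_mod_cast this
  -- the factor
  set B : ℝ := 2 * (Pa k a * ((s : ℝ) / k)) * τ ^ ((s : ℝ) / k - 1) with hB
  have hB0 : 0 ≤ B := by
    have := Pa_nonneg (k := k) ha0
    have h2 := Real.rpow_nonneg hτ ((s : ℝ) / k - 1)
    positivity
  have hex : ∀ x : ℝ, ex k a x τ = x * B := by
    intro x
    unfold ex
    rw [hB]
    ring
  rw [hex] at h7
  rcases lt_abs.1 h7 with h8 | h8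
  · right
    refine ⟨τ, h5, h6, lt_of_lt_of_le ?_ (le_abs_self _)⟩
    rw [hex]
    have h9 := hmono h2.le
    have h10 := mul_le_mul_of_nonneg_right h3 hB0
    linarith
  · left
    refine ⟨τ, h5, h6, lt_of_lt_of_le ?_ (neg_le_abs _)⟩
    rw [hex]
    have h9 := hmono h1.le
    have h10 := mul_le_mul_of_nonneg_right h4 hB0
    linarith

theorem windows_near {η ε : ℝ} (hη : 0 < η) (hη1 : η < 1) (hε : 0 < ε) :
    ∃ q₁ q₂ : ℚ, 0 < (q₁ : ℝ) ∧ (q₁ : ℝ) < η ∧ η < (q₂ : ℝ) ∧ (q₂ : ℝ) < 1 ∧ (1 + ε / 2) * (q₂ : ℝ) ≤ (1 + ε) * η ∧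
      (1 - ε) * η ≤ (1 - ε / 2) * (q₁ : ℝ) := by
  obtain ⟨q₂, h1, h2⟩ := exists_rat_btwn (show η < min 1 ((1 + ε) * η / (1 + ε / 2)) by
    rw [lt_min_iff, lt_div_iff₀ (by positivity)]
    exact ⟨hη1, by nlinarith⟩)
  have h3 : (1 - ε) * η < (1 - ε / 2) * η := by nlinarith
  obtain ⟨q₁, h4, h5⟩ := exists_rat_btwn (show max (η / 2) (η - ε * η / (4 * (1 + ε))) < η by
    rw [max_lt_iff]
    refine ⟨by linarith, ?_⟩
    have : 0 < ε * η / (4 * (1 + ε)) := by positivity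
    linarith)
  rw [lt_min_iff, lt_div_iff₀ (by positivity)] at h2
  rw [max_lt_iff] at h4
  refine ⟨q₁, q₂, by linarith, h5, h1, h2.1, by linarith, ?_⟩
  -- `(1 - ε / 2) (η - q₁) ≤ ε η / 2`
  have h6 : η - q₁ < ε * η / (4 * (1 + ε)) := by linarith
  have h7 : ε * η / (4 * (1 + ε)) * (1 + ε) = ε * η / 4 := by field_simp
  have h8 : (1 - ε / 2) * (η - q₁) ≤ (1 + ε) * (η - q₁) := mul_le_mul_of_nonneg_right (by linarith) (by linarith)
  have h9 : (1 + ε) * (η - q₁) ≤ (1 + ε) * (ε * η / (4 * (1 + ε))) := mul_le_mul_of_nonneg_left h6.le (by linarith)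
  nlinarith

/-- **All windows at once.** -/
theorem bad_all {k j m : ℕ} (hk : 2 ≤ k) (hj : 1 ≤ j) (hm : 1 ≤ m) (hT : StT) (hAe : StAe) :
    ∀ᵐ a ∂(cub m (k + j)), ∀ η : ℝ, 0 < η → η < 1 → ∀ ε : ℝ, 0 < ε → ∀ δ : ℝ, 0 < δ → ∃ C : ℝ, 0 ≤ C ∧ ∀ N : ℕ, 1 ≤ N →
      (Nat.card {n : ℕ // n ≤ N ∧ Bad k a η ε n} : ℝ) ≤ C * (N : ℝ) ^ max 0 (1 - 2 ^ j / 2 / (k : ℝ) + δ) := by
  have hall : ∀ᵐ a ∂(cub m (k + j)), ∀ q : ℚ, 0 < (q : ℝ) → (q : ℝ) < 1 → ∀ ε : ℝ, 0 < ε → ∀ δ : ℝ, 0 < δ →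
      ∃ C : ℝ, 0 ≤ C ∧ ∀ N : ℕ, 1 ≤ N →
      (Nat.card {n : ℕ // n ≤ N ∧ Bad k a q ε n} : ℝ) ≤ C * (N : ℝ) ^ max 0 (1 - 2 ^ j / 2 / (k : ℝ) + δ) := by
    rw [ae_all_iff]
    intro q
    by_cases h1 : 0 < (q : ℝ)
    · by_cases h2 : (q : ℝ) < 1
      · filter_upwards [bad_ae hk hj hm h1 h2 hT hAe] with a ha _ _
        exact ha
      · exact Filter.Eventually.of_forall fun a _ h => absurd h h2
    · exact Filter.Eventually.of_forall fun a h => absurd h h1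
  filter_upwards [hall, hAe.2.2.1 m (k + j)] with a h1 ha η hη hη1 ε hε δ hδ
  obtain ⟨q₁, q₂, h2, h3, h4, h5, h6, h7⟩ := windows_near hη hη1 hε
  obtain ⟨C₁, hC₁0, hC₁⟩ := h1 q₁ h2 (by linarith) (ε / 2) (by linarith) δ hδ
  obtain ⟨C₂, hC₂0, hC₂⟩ := h1 q₂ (by linarith) h5 (ε / 2) (by linarith) δ hδ
  refine ⟨C₁ + C₂, by linarith, fun N hN => ?_⟩
  have h8 : Nat.card {n : ℕ // n ≤ N ∧ Bad k a η ε n} ≤
      Nat.card {n : ℕ // n ≤ N ∧ Bad k a q₁ (ε / 2) n} + Nat.card {n : ℕ // n ≤ N ∧ Bad k a q₂ (ε / 2) n} := by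
    classical
    have key : ∀ P : ℕ → Prop, Nat.card {n : ℕ // n ≤ N ∧ P n} = ((Finset.range (N + 1)).filter P).card := by
      intro P
      apply Nat.subtype_card
      intro n
      rw [Finset.mem_filter, Finset.mem_range, Nat.lt_succ_iff]
    rw [key, key, key]
    have hsub : ((Finset.range (N + 1)).filter fun n => Bad k a η ε n) ⊆
        ((Finset.range (N + 1)).filter fun n => Bad k a q₁ (ε / 2) n) ∪
        ((Finset.range (N + 1)).filter fun n => Bad k a q₂ (ε / 2) n) := by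
      intro n hn
      rw [Finset.mem_filter] at hn
      rw [Finset.mem_union, Finset.mem_filter, Finset.mem_filter]
      rcases bad_between (by omega : 1 ≤ k) hm ha h2 h3 h4 hε h6 h7 hn.2 with h | h
      · exact Or.inl ⟨hn.1, h⟩
      · exact Or.inr ⟨hn.1, h⟩
    exact (Finset.card_le_card hsub).trans (Finset.card_union_le _ _)
  have h9 : (Nat.card {n : ℕ // n ≤ N ∧ Bad k a η ε n} : ℝ) ≤
      (Nat.card {n : ℕ // n ≤ N ∧ Bad k a q₁ (ε / 2) n} : ℝ) + (Nat.card {n : ℕ // n ≤ N ∧ Bad k a q₂ (ε / 2) n} : ℝ) := by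
    exact_mod_cast h8
  rw [add_mul]
  exact h9.trans (add_le_add (hC₁ N hN) (hC₂ N hN))

/-- **All coefficients.** -/
theorem bad_pos {k j : ℕ} (hk : 2 ≤ k) (hj : 1 ≤ j) (hT : StT) (hAe : StAe) :
    ∀ᵐ a : Fin (k + j) → ℝ, (∀ i, 0 < a i) →
      ∀ η : ℝ, 0 < η → η < 1 → ∀ ε : ℝ, 0 < ε → ∀ δ : ℝ, 0 < δ → ∃ C : ℝ, 0 ≤ C ∧ ∀ N : ℕ, 1 ≤ N →
      (Nat.card {n : ℕ // n ≤ N ∧ Bad k a η ε n} : ℝ) ≤ C * (N : ℝ) ^ max 0 (1 - 2 ^ j / 2 / (k : ℝ) + δ) :=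
  hAe.2.2.2 (k + j) _ fun m hm => bad_all hk hj hm hT hAe

end Pool.Agent.K7.H74.AG
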